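import Pool.Agent.Helper68.MR.St

/-! # sharp windows are averages of Gaussian windows -/

set_option autoImplicit false

namespace Pool.Agent.Helper68.MR

open Finset MeasureTheory Pool.Agent.Helper2.MR

namespace Shx

/-- the Gaussian -/
noncomputable def ga (s : ℝ) : ℝ := Real.exp (-(1 / 2) * s ^ 2)

lemma ga_pos (s : ℝ) : 0 < ga s := Real.exp_pos _

lemma ga_int : Integrable ga := integrable_exp_neg_mul_sq (by norm_num)

lemma ga_total : ∫ s, ga s = Real.sqrt (2 * Real.pi) := by
  have := integral_gaussian (1 / 2)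
  unfold ga
  rw [this]
  congr 1
  ring

lemma ga_cont : Continuous ga := by unfold ga; fun_prop

lemma ga_le_left (s : ℝ) : ga s ≤ 2 * Real.exp s := by
  have h1 : ga s ≤ Real.exp (1 / 2) * Real.exp s := by
    unfold ga
    rw [← Real.exp_add]
    apply Real.exp_le_exp.2
    nlinarith [sq_nonneg (s + 1)]
  have h2 : Real.exp (1 / 2) ≤ 2 := by
    have h3 : Real.exp (1 / 2) * Real.exp (1 / 2) = Real.exp 1 := by
      rw [← Real.exp_add]; norm_num
    have h4 := Real.exp_one_lt_d9
    nlinarith [Real.exp_pos (1 / 2)]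
  exact h1.trans (mul_le_mul_of_nonneg_right h2 (Real.exp_pos _).le)

lemma ga_le_right (s : ℝ) : ga s ≤ 2 * Real.exp (-s) := by
  have := ga_le_left (-s)
  have h : ga (-s) = ga s := by unfold ga; congr 1; ring
  rwa [h] at this

/-- the distribution function -/
noncomputable def Ph (y : ℝ) : ℝ := ∫ s in Set.Iic y, ga s

lemma Ph_left (y : ℝ) : 0 ≤ Ph y ∧ Ph y ≤ 2 * Real.exp y := by
  constructor
  · exact setIntegral_nonneg measurableSet_Iic fun s _ => (ga_pos s).le
  · unfold Ph
    have h1 : IntegrableOn (fun s : ℝ => 2 * Real.exp s) (Set.Iic y) :=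
      (integrableOn_exp_Iic y).const_mul 2
    calc ∫ s in Set.Iic y, ga s ≤ ∫ s in Set.Iic y, 2 * Real.exp s :=
          setIntegral_mono_on ga_int.integrableOn h1 measurableSet_Iic fun s _ => ga_le_left s
      _ = 2 * Real.exp y := by rw [integral_const_mul, integral_exp_Iic]

lemma Ph_right (y : ℝ) : Ph y ≤ Real.sqrt (2 * Real.pi) ∧
    Real.sqrt (2 * Real.pi) - 2 * Real.exp (-y) ≤ Ph y := by
  have h0 : Ph y + ∫ s in Set.Ioi y, ga s = Real.sqrt (2 * Real.pi) := by
    rw [← ga_total]
    have := setIntegral_union (f := ga) (μ := volume) (s := Set.Iic y) (t := Set.Ioi y)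
      (Set.Iic_disjoint_Ioi le_rfl) measurableSet_Ioi ga_int.integrableOn ga_int.integrableOn
    rw [Set.Iic_union_Ioi, setIntegral_univ] at this
    exact this.symm
  have h1 : 0 ≤ ∫ s in Set.Ioi y, ga s :=
    setIntegral_nonneg measurableSet_Ioi fun s _ => (ga_pos s).le
  have h2 : IntegrableOn (fun s : ℝ => 2 * Real.exp (-s)) (Set.Ioi y) :=
    (exp_neg_integrableOn_Ioi y one_pos |>.congr_fun (fun s _ => by simp) measurableSet_Ioi
      |>.const_mul 2)
  have h3 : ∫ s in Set.Ioi y, ga s ≤ 2 * Real.exp (-y) := by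
    calc ∫ s in Set.Ioi y, ga s ≤ ∫ s in Set.Ioi y, 2 * Real.exp (-s) :=
          setIntegral_mono_on ga_int.integrableOn h2 measurableSet_Ioi fun s _ => ga_le_right s
      _ = 2 * Real.exp (-y) := by rw [integral_const_mul, integral_exp_neg_Ioi]
  constructor <;> linarith

lemma Ph_step (y : ℝ) :
    |Ph y - (if 0 ≤ y then Real.sqrt (2 * Real.pi) else 0)| ≤ 2 * Real.exp (-|y|) := by
  split_ifs with h
  · rw [abs_of_nonneg h, abs_le]
    obtain ⟨h1, h2⟩ := Ph_right y
    have := Real.exp_pos (-y)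
    constructor <;> linarith
  · rw [not_le] at h
    rw [abs_of_neg h, neg_neg, sub_zero, abs_le]
    obtain ⟨h1, h2⟩ := Ph_left y
    have := Real.exp_pos y
    constructor <;> linarith

/-- the integral of one Gaussian window -/
lemma G_eq (T a b c : ℝ) :
    ∫ u in a..b, T * Real.exp (-(T ^ 2 * (u - c) ^ 2 / 2)) =
      Ph (T * (b - c)) - Ph (T * (a - c)) := by
  have h1 : ∫ u in a..b, T * Real.exp (-(T ^ 2 * (u - c) ^ 2 / 2)) =
      T * ∫ u in a..b, ga (T * u - T * c) := by
    rw [← intervalIntegral.integral_const_mul]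
    congr 1
    funext u
    unfold ga
    congr 2
    ring
  rw [h1, intervalIntegral.mul_integral_comp_mul_sub]
  unfold Ph
  rw [intervalIntegral.integral_Iic_sub_Iic ga_int.integrableOn ga_int.integrableOn]
  congr 1 <;> ring

lemma G_bound {T a b c : ℝ} (hT : 0 < T) (hab : a < b) :
    |Real.sqrt (2 * Real.pi) * (if a < c ∧ c ≤ b then 1 else 0) -
      ∫ u in a..b, T * Real.exp (-(T ^ 2 * (u - c) ^ 2 / 2))| ≤
      2 * Real.exp (-(T * |c - a|)) + 2 * Real.exp (-(T * |c - b|)) := by
  rw [G_eq]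
  have h1 := Ph_step (T * (b - c))
  have h2 := Ph_step (T * (a - c))
  have e1 : |T * (b - c)| = T * |c - b| := by rw [abs_mul, abs_of_pos hT, abs_sub_comm]
  have e2 : |T * (a - c)| = T * |c - a| := by rw [abs_mul, abs_of_pos hT, abs_sub_comm]
  rw [e1] at h1
  rw [e2] at h2
  have i1 : (0 ≤ T * (b - c)) ↔ c ≤ b := by
    rw [mul_nonneg_iff_of_pos_left hT, sub_nonneg]
  have i2 : (0 ≤ T * (a - c)) ↔ c ≤ a := by
    rw [mul_nonneg_iff_of_pos_left hT, sub_nonneg]
  have h3 : Real.sqrt (2 * Real.pi) * (if a < c ∧ c ≤ b then 1 else 0) =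
      (if 0 ≤ T * (b - c) then Real.sqrt (2 * Real.pi) else 0) -
        (if 0 ≤ T * (a - c) then Real.sqrt (2 * Real.pi) else 0) := by
    by_cases ha : c ≤ a
    · have hb : c ≤ b := ha.trans hab.le
      rw [if_neg (fun h => absurd h.1 (not_lt.2 ha)), if_pos (i1.2 hb), if_pos (i2.2 ha)]
      ring
    · by_cases hb : c ≤ b
      · rw [if_pos ⟨not_le.1 ha, hb⟩, if_pos (i1.2 hb), if_neg (fun h => ha (i2.1 h))]
        ring
      · rw [if_neg (fun h => hb h.2), if_neg (fun h => hb (i1.1 h)),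
          if_neg (fun h => ha (i2.1 h))]
        ring
  rw [h3]
  have h4 : ((if 0 ≤ T * (b - c) then Real.sqrt (2 * Real.pi) else 0) -
        (if 0 ≤ T * (a - c) then Real.sqrt (2 * Real.pi) else 0)) -
        (Ph (T * (b - c)) - Ph (T * (a - c))) =
      (Ph (T * (a - c)) - (if 0 ≤ T * (a - c) then Real.sqrt (2 * Real.pi) else 0)) -
      (Ph (T * (b - c)) - (if 0 ≤ T * (b - c) then Real.sqrt (2 * Real.pi) else 0)) := by ring
  rw [h4]
  refine (abs_sub _ _).trans ?_
  linarith

/-- a geometric sum over integers -/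
lemma geo (θ y : ℝ) (hθ : 0 < θ) (hy : 0 ≤ y) (F : Finset ℕ) :
    ∑ n ∈ F, Real.exp (-(θ * |(n : ℝ) - y|)) ≤ 2 * (1 + 1 / θ) := by
  classical
  set r : ℝ := Real.exp (-θ) with hr
  have hr0 : 0 < r := Real.exp_pos _
  have hr1 : r < 1 := by rw [hr, Real.exp_lt_one_iff]; linarith
  have hpow : ∀ k : ℕ, Real.exp (-(θ * k)) = r ^ k := by
    intro k
    rw [hr, ← Real.exp_nat_mul]
    congr 1
    ring
  set m : ℕ := ⌊y⌋₊ with hm
  have hm1 : (m : ℝ) ≤ y := Nat.floor_le hy
  have hm2 : y < m + 1 := Nat.lt_floor_add_one y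
  have hsum : Summable fun k : ℕ => r ^ k := summable_geometric_of_lt_one hr0.le hr1
  have hts : ∑' k : ℕ, r ^ k ≤ 1 + 1 / θ := by
    rw [tsum_geometric_of_lt_one hr0.le hr1]
    have h1 : θ + 1 ≤ Real.exp θ := Real.add_one_le_exp _
    have h2 : r * Real.exp θ = 1 := by rw [hr, ← Real.exp_add]; simp
    have h3 : r * (θ + 1) ≤ 1 := (mul_le_mul_of_nonneg_left h1 hr0.le).trans h2.le
    have h4 : 0 < 1 - r := by linarith
    rw [inv_le_iff_one_le_mul₀ h4]
    have h5 : (1 + 1 / θ) * (1 - r) = (1 - r) * (θ + 1) / θ := by field_simp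
    rw [h5, le_div_iff₀ hθ]
    nlinarith
  rw [← Finset.sum_filter_add_sum_filter_not F (fun n => n ≤ m)]
  have h1 : ∑ n ∈ F.filter (fun n => n ≤ m), Real.exp (-(θ * |(n : ℝ) - y|)) ≤ 1 + 1 / θ := by
    calc ∑ n ∈ F.filter (fun n => n ≤ m), Real.exp (-(θ * |(n : ℝ) - y|))
        ≤ ∑ n ∈ F.filter (fun n => n ≤ m), r ^ (m - n) := by
          refine Finset.sum_le_sum fun n hn => ?_
          have hnm : n ≤ m := (Finset.mem_filter.1 hn).2
          rw [← hpow, Real.exp_le_exp, Nat.cast_sub hnm]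
          have : (m : ℝ) - n ≤ |(n : ℝ) - y| := by
            rw [abs_sub_comm]
            exact le_trans (by linarith) (le_abs_self _)
          have := mul_le_mul_of_nonneg_left this hθ.le
          linarith
      _ = ∑ k ∈ (F.filter (fun n => n ≤ m)).image (fun n => m - n), r ^ k := by
          rw [Finset.sum_image]
          intro x hx y hy hxy
          have h1 := (Finset.mem_filter.1 (Finset.mem_coe.1 hx)).2
          have h2 := (Finset.mem_filter.1 (Finset.mem_coe.1 hy)).2
          have h3 : m - x = m - y := hxy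
          omega
      _ ≤ ∑' k : ℕ, r ^ k := hsum.sum_le_tsum _ fun k _ => (pow_pos hr0 k).le
      _ ≤ 1 + 1 / θ := hts
  have h2 : ∑ n ∈ F.filter (fun n => ¬ n ≤ m), Real.exp (-(θ * |(n : ℝ) - y|)) ≤ 1 + 1 / θ := by
    calc ∑ n ∈ F.filter (fun n => ¬ n ≤ m), Real.exp (-(θ * |(n : ℝ) - y|))
        ≤ ∑ n ∈ F.filter (fun n => ¬ n ≤ m), r ^ (n - (m + 1)) := by
          refine Finset.sum_le_sum fun n hn => ?_
          have hnm : m + 1 ≤ n := by
            have := (Finset.mem_filter.1 hn).2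
            omega
          rw [← hpow, Real.exp_le_exp, Nat.cast_sub hnm]
          have : (n : ℝ) - ((m + 1 : ℕ) : ℝ) ≤ |(n : ℝ) - y| := by
            push_cast
            exact le_trans (by linarith) (le_abs_self _)
          have := mul_le_mul_of_nonneg_left this hθ.le
          linarith
      _ = ∑ k ∈ (F.filter (fun n => ¬ n ≤ m)).image (fun n => n - (m + 1)), r ^ k := by
          rw [Finset.sum_image]
          intro x hx y hy hxy
          have h1 := (Finset.mem_filter.1 (Finset.mem_coe.1 hx)).2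
          have h2 := (Finset.mem_filter.1 (Finset.mem_coe.1 hy)).2
          have h3 : x - (m + 1) = y - (m + 1) := hxy
          omega
      _ ≤ ∑' k : ℕ, r ^ k := hsum.sum_le_tsum _ fun k _ => (pow_pos hr0 k).le
      _ ≤ 1 + 1 / θ := hts
  linarith

/-- differences of logarithms -/
lemma log_diff {u v Z : ℝ} (hu : 0 < u) (hv : 0 < v) (huZ : u ≤ Z) (hvZ : v ≤ Z) :
    |u - v| / Z ≤ |Real.log u - Real.log v| := by
  have key : ∀ {u v : ℝ}, 0 < u → 0 < v → v ≤ Z → u ≤ v →
      |u - v| / Z ≤ |Real.log u - Real.log v| := by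
    intro u v hu hv hvZ huv
    have hZ : 0 < Z := lt_of_lt_of_le hv hvZ
    have h1 : Real.log (u / v) ≤ u / v - 1 := Real.log_le_sub_one_of_pos (by positivity)
    rw [Real.log_div hu.ne' hv.ne'] at h1
    have h2 : (v - u) / v ≤ Real.log v - Real.log u := by
      have : (v - u) / v = 1 - u / v := by field_simp
      rw [this]; linarith
    rw [abs_sub_comm u v, abs_sub_comm (Real.log u), abs_of_nonneg (by linarith : 0 ≤ v - u)]
    refine le_trans ?_ (le_abs_self _)
    refine le_trans ?_ h2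
    exact div_le_div_of_nonneg_left (by linarith) hv hvZ
  rcases le_total u v with h | h
  · exact key hu hv hvZ h
  · rw [abs_sub_comm u v, abs_sub_comm (Real.log u)]
    exact key hv hu huZ h

/-- the tail sum -/
lemma tail {X : ℕ} {T y : ℝ} (hX : 1 ≤ X) (hT : 1 ≤ T) (hy0 : 0 < y) (hy : y ≤ 4 * X) :
    ∑ n ∈ Ioc X (2 * X), (1 / (n : ℝ)) * (2 * Real.exp (-(T * |Real.log n - Real.log y|))) ≤
      4 / X + 16 / T := by
  have hX0 : (0:ℝ) < X := by exact_mod_cast hX
  have hT0 : 0 < T := by linarith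
  have hθ : 0 < T / (4 * X) := by positivity
  calc ∑ n ∈ Ioc X (2 * X), (1 / (n : ℝ)) * (2 * Real.exp (-(T * |Real.log n - Real.log y|)))
      ≤ ∑ n ∈ Ioc X (2 * X), (2 / X) * Real.exp (-(T / (4 * X) * |(n : ℝ) - y|)) := by
        refine Finset.sum_le_sum fun n hn => ?_
        have hn1 := (Finset.mem_Ioc.1 hn).1
        have hn2 := (Finset.mem_Ioc.1 hn).2
        have hnX : (X : ℝ) ≤ n := by exact_mod_cast hn1.le
        have hn0 : (0:ℝ) < n := lt_of_lt_of_le hX0 hnX
        have hn4 : (n : ℝ) ≤ 4 * X := by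
          have : (n : ℝ) ≤ 2 * X := by exact_mod_cast hn2
          linarith
        have h1 := log_diff hn0 hy0 hn4 hy
        have h2 : Real.exp (-(T * |Real.log n - Real.log y|)) ≤
            Real.exp (-(T / (4 * X) * |(n : ℝ) - y|)) := by
          rw [Real.exp_le_exp]
          have := mul_le_mul_of_nonneg_left h1 hT0.le
          have h3 : T * (|(n : ℝ) - y| / (4 * X)) = T / (4 * X) * |(n : ℝ) - y| := by ring
          rw [h3] at this
          linarith
        have h4 : 1 / (n : ℝ) ≤ 1 / X := one_div_le_one_div_of_le hX0 hnX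
        calc (1 / (n : ℝ)) * (2 * Real.exp (-(T * |Real.log n - Real.log y|)))
            ≤ (1 / X) * (2 * Real.exp (-(T / (4 * X) * |(n : ℝ) - y|))) :=
              mul_le_mul h4 (by linarith) (by positivity) (by positivity)
          _ = (2 / X) * Real.exp (-(T / (4 * X) * |(n : ℝ) - y|)) := by ring
    _ = (2 / X) * ∑ n ∈ Ioc X (2 * X), Real.exp (-(T / (4 * X) * |(n : ℝ) - y|)) := by
        rw [Finset.mul_sum]
    _ ≤ (2 / X) * (2 * (1 + 1 / (T / (4 * X)))) :=
        mul_le_mul_of_nonneg_left (geo _ _ hθ hy0.le _) (by positivity)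
    _ = 4 / X + 16 / T := by field_simp; ring

end Shx

open Shx in
theorem sh : StSh := by
  refine ⟨32, by norm_num, fun g X H T x hg hX hH hHX hT hx1 hx2 => ?_⟩
  have hX0 : (0:ℝ) < X := by exact_mod_cast hX
  have hH0 : (0:ℝ) < H := by exact_mod_cast hH
  have hHX' : (H : ℝ) ≤ X := by exact_mod_cast hHX
  have hT0 : 0 < T := by linarith
  have hx0 : 0 < x := by linarith
  set a := Real.log x with ha
  set b := Real.log (x + H) with hb
  have hab : a < b := Real.log_lt_log hx0 (by linarith)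
  set F := Ioc X (2 * X) with hF
  let G : ℕ → ℝ := fun n => ∫ u in a..b, T * Real.exp (-(T ^ 2 * (u - Real.log n) ^ 2 / 2))
  -- the integral of `WW`
  have hW : ∫ u in a..b, WW g X T u = ∑ n ∈ F, g n / n * (G n : ℂ) := by
    unfold WW
    rw [intervalIntegral.integral_finsetSum]
    · refine Finset.sum_congr rfl fun n _ => ?_
      rw [intervalIntegral.integral_const_mul, intervalIntegral.integral_ofReal]
    · intro n _
      apply Continuous.intervalIntegrable
      fun_prop
  let ind : ℕ → ℝ := fun n => if x < (n : ℝ) ∧ (n : ℝ) ≤ x + H then 1 else 0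
  have hS : ∑ n ∈ F.filter (fun n : ℕ => x < (n : ℝ) ∧ (n : ℝ) ≤ x + H), g n / n =
      ∑ n ∈ F, g n / n * (ind n : ℂ) := by
    rw [Finset.sum_filter]
    refine Finset.sum_congr rfl fun n _ => ?_
    by_cases h : x < (n : ℝ) ∧ (n : ℝ) ≤ x + H
    · simp only [ind]
      rw [if_pos h, if_pos h]; simp
    · simp only [ind]
      rw [if_neg h, if_neg h]; simp
  rw [hS]
  set s : ℝ := Real.sqrt (2 * Real.pi) with hs
  have hs1 : 1 ≤ s := by
    rw [hs, Real.one_le_sqrt]
    have := Real.pi_gt_three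
    linarith
  have hdec : (s : ℂ) * ∑ n ∈ F, g n / n * (ind n : ℂ) =
      (∫ u in a..b, WW g X T u) + ∑ n ∈ F, g n / n * ((s * ind n - G n : ℝ) : ℂ) := by
    rw [hW, Finset.mul_sum, ← Finset.sum_add_distrib]
    refine Finset.sum_congr rfl fun n _ => ?_
    push_cast
    ring
  have h1 : ‖∑ n ∈ F, g n / n * (ind n : ℂ)‖ ≤ ‖(s : ℂ) * ∑ n ∈ F, g n / n * (ind n : ℂ)‖ := by
    rw [norm_mul, Complex.norm_real, Real.norm_of_nonneg (by linarith)]
    exact le_mul_of_one_le_left (norm_nonneg _) hs1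
  refine h1.trans ?_
  rw [hdec]
  refine (norm_add_le _ _).trans ?_
  have h2 : ‖∫ u in a..b, WW g X T u‖ ≤ ∫ u in a..b, ‖WW g X T u‖ :=
    intervalIntegral.norm_integral_le_integral_norm hab.le
  have h3 : ‖∑ n ∈ F, g n / n * ((s * ind n - G n : ℝ) : ℂ)‖ ≤ 32 * (1 / T + 1 / X) := by
    refine (norm_sum_le _ _).trans ?_
    calc ∑ n ∈ F, ‖g n / n * ((s * ind n - G n : ℝ) : ℂ)‖
        ≤ ∑ n ∈ F, ((1 / (n : ℝ)) * (2 * Real.exp (-(T * |Real.log n - a|))) +
            (1 / (n : ℝ)) * (2 * Real.exp (-(T * |Real.log n - b|)))) := by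
          refine Finset.sum_le_sum fun n hn => ?_
          have hn1 := (Finset.mem_Ioc.1 hn).1
          have hn0 : (0:ℝ) < n := by
            have : 0 < n := by omega
            exact_mod_cast this
          rw [norm_mul, norm_div, Complex.norm_real, Complex.norm_natCast]
          have e1 : ‖g n‖ / (n : ℝ) ≤ 1 / n := div_le_div_of_nonneg_right (hg n) hn0.le
          have e2 : ind n = if a < Real.log n ∧ Real.log n ≤ b then 1 else 0 := by
            have i1 : a < Real.log n ↔ x < n := Real.log_lt_log_iff hx0 hn0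
            have i2 : Real.log n ≤ b ↔ (n : ℝ) ≤ x + H :=
              Real.log_le_log_iff hn0 (by linarith)
            simp only [ind, i1, i2]
          have e3 := G_bound (c := Real.log n) hT0 hab
          rw [← e2] at e3
          rw [← mul_add]
          exact mul_le_mul e1 e3 (norm_nonneg _) (by positivity)
      _ ≤ (4 / X + 16 / T) + (4 / X + 16 / T) := by
          rw [Finset.sum_add_distrib]
          exact add_le_add (tail hX hT hx0 (by linarith)) (tail hX hT (by linarith) (by linarith))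
      _ ≤ 32 * (1 / T + 1 / X) := by
          have : 0 < 1 / (X : ℝ) := by positivity
          have e1 : 4 / (X : ℝ) = 4 * (1 / X) := by ring
          have e2 : 16 / T = 16 * (1 / T) := by ring
          rw [e1, e2]
          linarith
  linarith

end Pool.Agent.Helper68.MR
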