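import Pool.Agent.Helper2.MR.St

/-!
# Matomaki-Radziwill for `λ χ`: levels `1..J`, windows, arithmetic progressions (statements)

All statements are `Prop`s; each is proved in a module of its own. Notation of
`Pool.Agent.Helper2.MR.St`: `ch t n = n^{-it}`, `gl χ = λ χ`, `FX`, `qv`, `Rv`, `prm`, `mu`, `Cells`.
-/

set_option autoImplicit false

namespace Pool.Agent.Helper68.MR

open Finset MeasureTheory Pool.Agent.Helper2.MR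

/-! ## Combinatorics of moments -/

/-- number of ordered `l`-tuples of elements of `I` with product `n` -/
def r0 (I : Finset ℕ) (l n : ℕ) : ℕ :=
  ((Fintype.piFinset (fun _ : Fin l => I)).filter (fun f => ∏ i, f i = n)).card

/-- number of pairs (ordered `l`-tuple of elements of `I`, `m ∈ (M, 2M]`) with product `n` -/
noncomputable def rp (I : Finset ℕ) (l : ℕ) (M : ℝ) (n : ℕ) : ℕ :=
  ((Fintype.piFinset (fun _ : Fin l => I) ×ˢ Ioc ⌊M⌋₊ ⌊2 * M⌋₊).filter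
    (fun x => (∏ i, x.1 i) * x.2 = n)).card

/-- at most `l!` orderings -/
def StR0 : Prop := ∀ (I : Finset ℕ), (∀ p ∈ I, p.Prime) → ∀ l n : ℕ, r0 I l n ≤ l.factorial

/-- second moment of `rp` -/
def StKM : Prop :=
  ∀ (I : Finset ℕ), (∀ p ∈ I, p.Prime) → mu I ≤ 1 → ∀ (l N : ℕ) (M : ℝ), 1 ≤ M →
    ∑ n ∈ Icc 1 N, (rp I l M n : ℝ) ^ 2 / n ≤ 2 * (l + 1) * (l.factorial : ℝ) ^ 2

/-- the sum of `1/p` over a window is at most `1` -/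
def StWd : Prop := ∀ V r : ℕ, 3 ≤ V → V ≤ r → mu (Iv V r) ≤ 1

/-- mean square of a power of a prime polynomial times a polynomial -/
def StMom : Prop :=
  ∃ C : ℝ, 0 < C ∧ ∀ (q : ℕ) (χ : DirichletCharacter ℂ q) (V r l : ℕ) (M T : ℝ) (a : ℕ → ℂ),
    3 ≤ V → V ≤ r → 1 ≤ M → 1 ≤ T → T ≤ M * Real.exp (l * ((r : ℝ) / V)) → (∀ m, ‖a m‖ ≤ 1) →
    ∫ t in (-T)..T, (‖qv χ V r t‖ ^ l * ‖∑ m ∈ Ioc ⌊M⌋₊ ⌊2 * M⌋₊, a m * ch t m / m‖) ^ 2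
      ≤ C * Real.exp l * (l + 1) * (l.factorial : ℝ) ^ 2

/-! ## Levels -/

/-- the first level -/
def StLv1 : Prop :=
  ∃ C : ℝ, 0 < C ∧ ∀ (q : ℕ) (χ : DirichletCharacter ℂ q) (V v1 v2 X : ℕ) (T α : ℝ) (E : Set ℝ),
    1 ≤ V → v1 ≤ v2 → 1 ≤ T → 0 ≤ α → T ≤ X * Real.exp (-((v2 : ℝ) / V)) →
    MeasurableSet E → E ⊆ Set.Icc (-T) T →
    (∀ t ∈ E, ∀ v ∈ Ico v1 v2, ‖qv χ V v t‖ ≤ Real.exp (-(α * ((v : ℝ) / V)))) →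
    ∫ t in E, ‖∑ v ∈ Ico v1 v2, qv χ V v t * Rv χ V v X t‖ ^ 2
      ≤ C * ((v2 : ℝ) - v1) ^ 2 * Real.exp (-(2 * α * ((v1 : ℝ) / V)))

/-- the levels after the first: on `E` the polynomials of the present level are small and some
polynomial of the previous level (parameters `V'`, `r1`, `r2`, `α'`) is large -/
def StLv : Prop :=
  ∃ C : ℝ, 0 < C ∧ ∀ (q : ℕ) (χ : DirichletCharacter ℂ q) (V v1 v2 V' r1 r2 X : ℕ)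
    (T α α' : ℝ) (E : Set ℝ),
    1 ≤ V → 3 ≤ V' → v1 ≤ v2 → V' ≤ r1 → r1 ≤ r2 → 1 ≤ T → T ≤ X →
    Real.exp ((v2 : ℝ) / V) ≤ X → 0 ≤ α' → α ≤ 1 → 0 < α - α' → 2 ≤ (r1 : ℝ) / V' →
    4 + 4 * Real.log ((v2 : ℝ) / V) ≤ (α - α') * ((r1 : ℝ) / V') →
    4 * α' * ((r2 : ℝ) / V') ≤ (α - α') * ((v1 : ℝ) / V) →
    MeasurableSet E → E ⊆ Set.Icc (-T) T →
    (∀ t ∈ E, ∀ v ∈ Ico v1 v2, ‖qv χ V v t‖ ≤ Real.exp (-(α * ((v : ℝ) / V)))) →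
    (∀ t ∈ E, ∃ r ∈ Ico r1 r2, Real.exp (-(α' * ((r : ℝ) / V'))) < ‖qv χ V' r t‖) →
    ∫ t in E, ‖∑ v ∈ Ico v1 v2, qv χ V v t * Rv χ V v X t‖ ^ 2
      ≤ C * ((v2 : ℝ) - v1) ^ 2 * ((r2 : ℝ) - r1) *
        Real.exp (-((α - α') * ((v1 : ℝ) / V) / 2))

/-- after the last level few unit cells are left -/
def StCel : Prop :=
  ∃ K X0 : ℝ, 4 ≤ K ∧ ∀ (q : ℕ) (χ : DirichletCharacter ℂ q) (V r1 r2 X : ℕ) (α : ℝ) (E : Set ℝ),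
    3 ≤ V → V ≤ r1 → r1 ≤ r2 → X0 ≤ X → K * Real.log (Real.log X) ≤ (r1 : ℝ) / V →
    K * ((r2 : ℝ) / V) ≤ Real.log X → (V : ℝ) ≤ Real.log X → 0 ≤ α → α ≤ 1 / 5 →
    E ⊆ Set.Icc (-(X : ℝ)) X →
    (∀ t ∈ E, ∃ r ∈ Ico r1 r2, Real.exp (-(α * ((r : ℝ) / V))) < ‖qv χ V r t‖) →
    Cells E ((X : ℝ) ^ ((1 : ℝ) / 2 - 1 / 20))

/-- exponents of the levels -/
noncomputable def al (n : ℕ) : ℝ := 1 / 5 - 1 / (10 * n)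

/-- lower ends (of `log p`) of the levels -/
def uu (b n : ℕ) : ℕ := b ^ (n ^ 3)

/-- upper ends (of `log p`) of the levels -/
def ww (b n : ℕ) : ℕ := b ^ (n ^ 3 + n ^ 2)

/-- fineness of the windows of the levels -/
def VV (D n : ℕ) : ℕ := D * n ^ 2

/-- all inequalities between the parameters hold from some level on -/
def StPar : Prop :=
  ∀ (b D : ℕ) (C ε : ℝ), 8 ≤ b → 3 ≤ D → 0 < C → 0 < ε → ∃ n0 : ℕ, 2 ≤ n0 ∧ ∀ n, n0 ≤ n →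
    C * ((VV D n : ℝ) * ww b n) ^ 2 * Real.exp (-(2 * al n * uu b n)) ≤ ε * (1 / 2) ^ n ∧
    0 < al (n + 1) - al n ∧ 2 ≤ (uu b n : ℝ) ∧
    4 + 4 * Real.log (ww b (n + 1)) ≤ (al (n + 1) - al n) * uu b n ∧
    4 * al n * ww b n ≤ (al (n + 1) - al n) * uu b (n + 1) ∧
    C * ((VV D (n + 1) : ℝ) * ww b (n + 1)) ^ 2 * ((VV D n : ℝ) * ww b n) *
      Real.exp (-((al (n + 1) - al n) * uu b (n + 1) / 2)) ≤ ε * (1 / 2) ^ (n + 1)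

/-- the last level for given `X` -/
def StTop : Prop :=
  ∀ (b D n0 : ℕ) (K : ℝ), 8 ≤ b → 0 < K → ∃ X0 : ℕ, ∀ X : ℕ, X0 ≤ X → ∃ N : ℕ, n0 ≤ N ∧
    K * Real.log (Real.log X) ≤ uu b N ∧ K * (ww b N : ℝ) ≤ Real.log X ∧
    (VV D N : ℝ) ≤ Real.log X

/-- mean square of `FX` on `|t| ≤ X / H0` -/
def StLEV : Prop :=
  ∀ (q : ℕ) [NeZero q] (χ : DirichletCharacter ℂ q) (ε : ℝ), 0 < ε → ∃ H0 : ℝ, 1 ≤ H0 ∧
    ∃ X0 : ℕ, ∀ X : ℕ, X0 ≤ X → ∫ t in (-((X : ℝ) / H0))..((X : ℝ) / H0), ‖FX χ X t‖ ^ 2 ≤ ε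

/-! ## From mean squares to windows -/

/-- Plancherel for Gaussian windows -/
def StGau : Prop :=
  ∀ (S : Finset ℕ) (a : ℕ → ℂ) (T : ℝ), 0 < T →
    Integrable (fun u : ℝ => ‖∑ n ∈ S, a n * ((T * Real.exp (-(T ^ 2 * (u - Real.log n) ^ 2 / 2)) :
      ℝ) : ℂ)‖ ^ 2) ∧
    ∫ u : ℝ, ‖∑ n ∈ S, a n * ((T * Real.exp (-(T ^ 2 * (u - Real.log n) ^ 2 / 2)) : ℝ) : ℂ)‖ ^ 2 =
      ∫ t : ℝ, Real.exp (-(t / T) ^ 2) * ‖∑ n ∈ S, a n * ch t n‖ ^ 2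

/-- mean square with a Gaussian weight -/
def StTail : Prop :=
  ∀ (q : ℕ) [NeZero q] (χ : DirichletCharacter ℂ q) (ε : ℝ), 0 < ε → ∃ H0 : ℝ, 1 ≤ H0 ∧
    ∃ X0 : ℕ, ∀ (X : ℕ) (T : ℝ), X0 ≤ X → 1 ≤ T → T ≤ X / H0 →
      ∫ t : ℝ, Real.exp (-(t / T) ^ 2) * ‖FX χ X t‖ ^ 2 ≤ ε

/-- Gaussian windows of `g(n)/n`, `X < n ≤ 2X` -/
noncomputable def WW (g : ℕ → ℂ) (X : ℕ) (T u : ℝ) : ℂ :=
  ∑ n ∈ Ioc X (2 * X), g n / n * ((T * Real.exp (-(T ^ 2 * (u - Real.log n) ^ 2 / 2)) : ℝ) : ℂ)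

/-- sharp windows are averages of Gaussian windows -/
def StSh : Prop :=
  ∃ C : ℝ, 0 < C ∧ ∀ (g : ℕ → ℂ) (X H : ℕ) (T x : ℝ), (∀ n, ‖g n‖ ≤ 1) → 1 ≤ X → 1 ≤ H →
    H ≤ X → 1 ≤ T → (X : ℝ) ≤ x → x ≤ 2 * X →
    ‖∑ n ∈ (Ioc X (2 * X)).filter (fun n : ℕ => x < (n : ℝ) ∧ (n : ℝ) ≤ x + H), g n / n‖ ≤
      (∫ u in (Real.log x)..(Real.log (x + H)), ‖WW g X T u‖) + C * (1 / T + 1 / X)

/-- short averages of `λ χ`, mean square over a dyadic block -/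
def StWin : Prop :=
  ∀ (q : ℕ) [NeZero q] (χ : DirichletCharacter ℂ q) (ε : ℝ), 0 < ε → ∃ H0 : ℕ, ∀ H : ℕ, H0 ≤ H →
    ∃ X0 : ℕ, ∀ X : ℕ, X0 ≤ X →
      ∑ n ∈ Ioc X (2 * X), (1 / (n : ℝ)) * ‖(∑ m ∈ Ioc n (n + H), gl χ m) / H‖ ^ 2 ≤ ε

/-- short averages of `λ χ`, logarithmic mean -/
def StLg : Prop :=
  ∀ (q : ℕ) [NeZero q] (χ : DirichletCharacter ℂ q) (ε : ℝ), 0 < ε → ∃ H0 : ℕ, ∀ H : ℕ, H0 ≤ H →
    ∃ N0 : ℕ, ∀ N : ℕ, N0 ≤ N →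
      ∑ n ∈ Icc 1 N, (1 / (n : ℝ)) * ‖(∑ m ∈ Ioc n (n + H), gl χ m) / H‖ ≤ ε * Real.log N

/-- FINAL STATEMENT OF PART A: short averages of `λ` along arithmetic progressions are small for
almost all starting points, in logarithmic density -/
def StAP : Prop :=
  ∀ (q : ℕ) (ε : ℝ), 1 ≤ q → 0 < ε → ∃ H0 : ℕ, ∀ H : ℕ, H0 ≤ H → ∃ N0 : ℕ, ∀ N : ℕ, N0 ≤ N →
    ∑ n ∈ Icc 1 N, (1 / (n : ℝ)) *
      |(∑ j ∈ range H, (-1 : ℝ) ^ (ArithmeticFunction.cardFactors (n + j * q))) / H| ≤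
        ε * Real.log N

end Pool.Agent.Helper68.MR
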