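import Pool.Agent.Helper68.MR.St

/-! # Plancherel for Gaussian windows -/

set_option autoImplicit false

namespace Pool.Agent.Helper68.MR

open Finset MeasureTheory Pool.Agent.Helper2.MR

private theorem gau_sqrt (w : ℝ) (hw : 0 ≤ w) : ((w : ℂ)) ^ ((1 : ℂ) / 2) = ((√w : ℝ) : ℂ) := by
  rw [Real.sqrt_eq_rpow, Complex.ofReal_cpow hw]
  norm_num

/-- the kernel on the left -/
private theorem gau_kerL (T : ℝ) (hT : 0 < T) (x y : ℝ) :
    ∫ u : ℝ, Complex.exp (-((T ^ 2 : ℝ) : ℂ) * (u : ℂ) ^ 2 + ((T ^ 2 * (x + y) : ℝ) : ℂ) * u +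
      ((-(T ^ 2 * (x ^ 2 + y ^ 2) / 2) : ℝ) : ℂ)) =
      ((√Real.pi / T * Real.exp (-(T ^ 2 * (x - y) ^ 2 / 4)) : ℝ) : ℂ) := by
  have hT2 : 0 < T ^ 2 := by positivity
  rw [integral_cexp_quadratic (b := -((T ^ 2 : ℝ) : ℂ)) (by
    rw [Complex.neg_re, Complex.ofReal_re]; linarith)]
  rw [neg_neg, ← Complex.ofReal_div, gau_sqrt _ (by positivity)]
  have h1 : √(Real.pi / T ^ 2) = √Real.pi / T := by
    rw [Real.sqrt_div Real.pi_pos.le, Real.sqrt_sq hT.le]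
  rw [h1, Complex.ofReal_mul (√Real.pi / T), Complex.ofReal_exp]
  congr 2
  push_cast
  have hTc : (T : ℂ) ≠ 0 := by exact_mod_cast hT.ne'
  field_simp
  ring

/-- the kernel on the right -/
private theorem gau_kerR (T : ℝ) (hT : 0 < T) (x y : ℝ) :
    ∫ t : ℝ, Complex.exp (-(((T ^ 2)⁻¹ : ℝ) : ℂ) * (t : ℂ) ^ 2 +
      (-((x - y : ℝ) : ℂ) * Complex.I) * t + 0) =
      ((T * √Real.pi * Real.exp (-(T ^ 2 * (x - y) ^ 2 / 4)) : ℝ) : ℂ) := by
  have hT2 : 0 < (T ^ 2)⁻¹ := by positivity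
  rw [integral_cexp_quadratic (b := -(((T ^ 2)⁻¹ : ℝ) : ℂ)) (by
    rw [Complex.neg_re, Complex.ofReal_re]; linarith)]
  rw [neg_neg, ← Complex.ofReal_div, gau_sqrt _ (by positivity)]
  have h1 : √(Real.pi / (T ^ 2)⁻¹) = T * √Real.pi := by
    rw [div_inv_eq_mul, Real.sqrt_mul Real.pi_pos.le, Real.sqrt_sq hT.le, mul_comm]
  rw [h1, Complex.ofReal_mul (T * √Real.pi), Complex.ofReal_exp]
  congr 2
  have hTc : (T : ℂ) ≠ 0 := by exact_mod_cast hT.ne'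
  push_cast
  rw [mul_pow, Complex.I_sq]
  field_simp
  ring

private theorem gau_sq (z : ℂ) : ((‖z‖ ^ 2 : ℝ) : ℂ) = z * (starRingEnd ℂ) z := by
  rw [Complex.mul_conj, Complex.normSq_eq_norm_sq]

private theorem gau_dbl (S : Finset ℕ) (a : ℕ → ℂ) (g : ℕ → ℂ) :
    ((‖∑ n ∈ S, a n * g n‖ ^ 2 : ℝ) : ℂ) =
      ∑ m ∈ S, ∑ n ∈ S, a m * (starRingEnd ℂ) (a n) * (g m * (starRingEnd ℂ) (g n)) := by
  rw [gau_sq, map_sum, Finset.sum_mul_sum]
  refine Finset.sum_congr rfl fun m _ => Finset.sum_congr rfl fun n _ => ?_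
  rw [map_mul]
  ring

private theorem gau_left (S : Finset ℕ) (a : ℕ → ℂ) (T u : ℝ) :
    ((‖∑ n ∈ S, a n * ((T * Real.exp (-(T ^ 2 * (u - Real.log n) ^ 2 / 2)) : ℝ) : ℂ)‖ ^ 2 : ℝ) : ℂ) =
      ∑ m ∈ S, ∑ n ∈ S, a m * (starRingEnd ℂ) (a n) * ((T : ℂ) ^ 2 *
        Complex.exp (-((T ^ 2 : ℝ) : ℂ) * (u : ℂ) ^ 2 +
          ((T ^ 2 * (Real.log m + Real.log n) : ℝ) : ℂ) * u +
          ((-(T ^ 2 * (Real.log m ^ 2 + Real.log n ^ 2) / 2) : ℝ) : ℂ))) := by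
  rw [gau_dbl]
  refine Finset.sum_congr rfl fun m _ => Finset.sum_congr rfl fun n _ => ?_
  congr 1
  rw [Complex.conj_ofReal, ← Complex.ofReal_mul]
  have h : T * Real.exp (-(T ^ 2 * (u - Real.log m) ^ 2 / 2)) *
      (T * Real.exp (-(T ^ 2 * (u - Real.log n) ^ 2 / 2))) =
      T ^ 2 * Real.exp (-(T ^ 2) * u ^ 2 + T ^ 2 * (Real.log m + Real.log n) * u +
        (-(T ^ 2 * (Real.log m ^ 2 + Real.log n ^ 2) / 2))) := by
    have h1 : -(T ^ 2) * u ^ 2 + T ^ 2 * (Real.log m + Real.log n) * u +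
        (-(T ^ 2 * (Real.log m ^ 2 + Real.log n ^ 2) / 2)) =
        -(T ^ 2 * (u - Real.log m) ^ 2 / 2) + -(T ^ 2 * (u - Real.log n) ^ 2 / 2) := by ring
    rw [h1, Real.exp_add]
    ring
  rw [h]
  push_cast
  rfl

private theorem gau_right (S : Finset ℕ) (a : ℕ → ℂ) (T t : ℝ) :
    ((Real.exp (-(t / T) ^ 2) * ‖∑ n ∈ S, a n * ch t n‖ ^ 2 : ℝ) : ℂ) =
      ∑ m ∈ S, ∑ n ∈ S, a m * (starRingEnd ℂ) (a n) *
        Complex.exp (-(((T ^ 2)⁻¹ : ℝ) : ℂ) * (t : ℂ) ^ 2 +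
          (-((Real.log m - Real.log n : ℝ) : ℂ) * Complex.I) * t + 0) := by
  rw [Complex.ofReal_mul, gau_dbl, Finset.mul_sum]
  refine Finset.sum_congr rfl fun m _ => ?_
  rw [Finset.mul_sum]
  refine Finset.sum_congr rfl fun n _ => ?_
  have h : (starRingEnd ℂ) (ch t n) = Complex.exp (((t * Real.log n : ℝ) : ℂ) * Complex.I) := by
    unfold ch
    rw [← Complex.exp_conj, map_mul, Complex.conj_ofReal, Complex.conj_I]
    congr 1
    push_cast
    ring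
  rw [h]
  unfold ch
  rw [Complex.ofReal_exp, ← Complex.exp_add, mul_left_comm, ← Complex.exp_add]
  congr 2
  push_cast
  rw [div_pow, div_eq_mul_inv]
  ring

theorem gau : StGau := by
  intro S a T hT
  have hT2 : 0 < T ^ 2 := by positivity
  have hT3 : 0 < (T ^ 2)⁻¹ := by positivity
  have hTc : (T : ℂ) ≠ 0 := by exact_mod_cast hT.ne'
  -- integrability of the terms
  have hiL : ∀ m n : ℕ, Integrable (fun u : ℝ => a m * (starRingEnd ℂ) (a n) * ((T : ℂ) ^ 2 *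
        Complex.exp (-((T ^ 2 : ℝ) : ℂ) * (u : ℂ) ^ 2 +
          ((T ^ 2 * (Real.log m + Real.log n) : ℝ) : ℂ) * u +
          ((-(T ^ 2 * (Real.log m ^ 2 + Real.log n ^ 2) / 2) : ℝ) : ℂ)))) := by
    intro m n
    refine Integrable.const_mul (Integrable.const_mul ?_ _) _
    exact integrable_cexp_quadratic (by rw [Complex.ofReal_re]; exact hT2) _ _
  have hiR : ∀ m n : ℕ, Integrable (fun t : ℝ => a m * (starRingEnd ℂ) (a n) *
        Complex.exp (-(((T ^ 2)⁻¹ : ℝ) : ℂ) * (t : ℂ) ^ 2 +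
          (-((Real.log m - Real.log n : ℝ) : ℂ) * Complex.I) * t + 0)) := by
    intro m n
    refine Integrable.const_mul ?_ _
    exact integrable_cexp_quadratic (by rw [Complex.ofReal_re]; exact hT3) _ _
  have hintL : Integrable (fun u : ℝ =>
      ((‖∑ n ∈ S, a n * ((T * Real.exp (-(T ^ 2 * (u - Real.log n) ^ 2 / 2)) : ℝ) : ℂ)‖ ^ 2 : ℝ) : ℂ)) := by
    simp_rw [gau_left]
    exact integrable_finsetSum _ fun m _ => integrable_finsetSum _ fun n _ => hiL m n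
  refine ⟨?_, ?_⟩
  · have h := hintL.re
    refine h.congr (Filter.Eventually.of_forall fun u => ?_)
    exact Complex.ofReal_re _
  · apply Complex.ofReal_injective
    rw [← integral_complex_ofReal, ← integral_complex_ofReal]
    have e1 : (fun u : ℝ => (((‖∑ n ∈ S, a n * ((T * Real.exp (-(T ^ 2 * (u - Real.log n) ^ 2 / 2)) : ℝ) : ℂ)‖ ^ 2 : ℝ)) : ℂ)) =
        fun u : ℝ => ∑ m ∈ S, ∑ n ∈ S, a m * (starRingEnd ℂ) (a n) * ((T : ℂ) ^ 2 *
        Complex.exp (-((T ^ 2 : ℝ) : ℂ) * (u : ℂ) ^ 2 +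
          ((T ^ 2 * (Real.log m + Real.log n) : ℝ) : ℂ) * u +
          ((-(T ^ 2 * (Real.log m ^ 2 + Real.log n ^ 2) / 2) : ℝ) : ℂ))) :=
      funext fun u => gau_left S a T u
    have e2 : (fun t : ℝ => ((Real.exp (-(t / T) ^ 2) * ‖∑ n ∈ S, a n * ch t n‖ ^ 2 : ℝ) : ℂ)) =
        fun t : ℝ => ∑ m ∈ S, ∑ n ∈ S, a m * (starRingEnd ℂ) (a n) *
        Complex.exp (-(((T ^ 2)⁻¹ : ℝ) : ℂ) * (t : ℂ) ^ 2 +
          (-((Real.log m - Real.log n : ℝ) : ℂ) * Complex.I) * t + 0) :=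
      funext fun t => gau_right S a T t
    have h1 := congrArg (fun f : ℝ → ℂ => ∫ u : ℝ, f u) e1
    have h2 := congrArg (fun f : ℝ → ℂ => ∫ u : ℝ, f u) e2
    refine h1.trans (Eq.trans ?_ h2.symm)
    rw [integral_finsetSum _ fun m _ => integrable_finsetSum _ fun n _ => hiL m n,
      integral_finsetSum _ fun m _ => integrable_finsetSum _ fun n _ => hiR m n]
    refine Finset.sum_congr rfl fun m _ => ?_
    rw [integral_finsetSum _ fun n _ => hiL m n, integral_finsetSum _ fun n _ => hiR m n]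
    refine Finset.sum_congr rfl fun n _ => ?_
    rw [integral_const_mul, integral_const_mul, integral_const_mul, gau_kerL T hT, gau_kerR T hT]
    congr 1
    push_cast
    field_simp

end Pool.Agent.Helper68.MR
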