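import Pool.Agent.Helper68.MR.St

/-! # short averages, mean square over a dyadic block -/

set_option autoImplicit false

namespace Pool.Agent.Helper68.MR

open Finset MeasureTheory Pool.Agent.Helper2.MR

namespace WinAux

/-- multiplicity of the short logarithmic windows -/
theorem mult_le (X H : ℕ) (hX : 1 ≤ X) (hH : 1 ≤ H) (hHX : H ≤ X) (u : ℝ) :
    (((Ioc X (2 * X)).filter (fun n : ℕ => Real.log n < u ∧
      u ≤ Real.log n + (H : ℝ) / X)).card : ℝ) ≤ 5 * H := by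
  set S := (Ioc X (2 * X)).filter (fun n : ℕ => Real.log n < u ∧
      u ≤ Real.log n + (H : ℝ) / X) with hS
  have hX' : (1 : ℝ) ≤ X := by exact_mod_cast hX
  have hH' : (1 : ℝ) ≤ H := by exact_mod_cast hH
  have hHX' : (H : ℝ) ≤ X := by exact_mod_cast hHX
  rcases S.eq_empty_or_nonempty with h0 | hne
  · rw [h0]; simp
  · set n0 := S.min' hne with hn0
    have hn0m : n0 ∈ S := S.min'_mem hne
    have hn0m' := hn0m
    rw [hS, Finset.mem_filter, Finset.mem_Ioc] at hn0m'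
    have hn0X : (X : ℝ) < n0 := by exact_mod_cast hn0m'.1.1
    have hn0X2 : (n0 : ℝ) ≤ 2 * X := by exact_mod_cast hn0m'.1.2
    have hd0 : (0 : ℝ) ≤ (H : ℝ) / X := by positivity
    have hd1 : (H : ℝ) / X ≤ 1 := by
      rw [div_le_one (by linarith)]; exact hHX'
    have hexp : Real.exp ((H : ℝ) / X) ≤ 1 + 2 * ((H : ℝ) / X) := by
      have := Real.abs_exp_sub_one_sub_id_le (x := (H : ℝ) / X) (by rw [abs_of_nonneg hd0]; exact hd1)
      have h2 := (abs_le.mp this).2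
      nlinarith
    have hsub : S ⊆ Icc n0 (n0 + 4 * H) := by
      intro n hn
      have h1 : n0 ≤ n := S.min'_le n hn
      have hn' := hn
      rw [hS, Finset.mem_filter, Finset.mem_Ioc] at hn'
      have hnpos : (0 : ℝ) < n := by
        have : 0 < n := by omega
        exact_mod_cast this
      have hlog : Real.log n < Real.log n0 + (H : ℝ) / X := lt_of_lt_of_le hn'.2.1 hn0m'.2.2
      have hn0pos : (0 : ℝ) < n0 := by linarith
      have h3 : (n : ℝ) < n0 * Real.exp ((H : ℝ) / X) := by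
        have := Real.exp_lt_exp.mpr hlog
        rwa [Real.exp_add, Real.exp_log hnpos, Real.exp_log hn0pos] at this
      have h4 : (n0 : ℝ) * Real.exp ((H : ℝ) / X) ≤ n0 + 4 * H := by
        have h5 : (n0 : ℝ) * Real.exp ((H : ℝ) / X) ≤ n0 * (1 + 2 * ((H : ℝ) / X)) :=
          mul_le_mul_of_nonneg_left hexp hn0pos.le
        have h6 : (n0 : ℝ) * ((H : ℝ) / X) ≤ 2 * H := by
          calc (n0 : ℝ) * ((H : ℝ) / X) ≤ 2 * X * ((H : ℝ) / X) :=
                mul_le_mul_of_nonneg_right hn0X2 hd0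
            _ = 2 * H := by field_simp
        linarith
      have h7 : (n : ℝ) < ((n0 + 4 * H : ℕ) : ℝ) := by push_cast; linarith
      have h8 : n < n0 + 4 * H := by exact_mod_cast h7
      rw [Finset.mem_Icc]
      omega
    have hc := Finset.card_le_card hsub
    rw [Nat.card_Icc] at hc
    have hc2 : S.card ≤ 5 * H := by omega
    exact_mod_cast hc2

/-- overlapping windows -/
theorem sum_win (X H : ℕ) (hX : 1 ≤ X) (hH : 1 ≤ H) (hHX : H ≤ X) (F : ℝ → ℝ)
    (hF0 : ∀ u, 0 ≤ F u) (hFi : Integrable F) (S : Finset ℕ) (hS : S ⊆ Ioc X (2 * X)) :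
    ∑ n ∈ S, ∫ u in (Real.log n)..(Real.log n + (H : ℝ) / X), F u ≤ 5 * H * ∫ u, F u := by
  have hd0 : (0 : ℝ) ≤ (H : ℝ) / X := by positivity
  have h1 : ∀ n ∈ S, ∫ u in (Real.log n)..(Real.log n + (H : ℝ) / X), F u =
      ∫ u, (Set.Ioc (Real.log n) (Real.log n + (H : ℝ) / X)).indicator F u := by
    intro n _
    rw [intervalIntegral.integral_of_le (by linarith), integral_indicator measurableSet_Ioc]
  rw [Finset.sum_congr rfl h1, ← integral_finsetSum _ (fun n _ => hFi.indicator measurableSet_Ioc),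
    ← integral_const_mul]
  apply integral_mono
  · exact integrable_finsetSum _ (fun n _ => hFi.indicator measurableSet_Ioc)
  · exact hFi.const_mul _
  · intro u
    show ∑ n ∈ S, (Set.Ioc (Real.log n) (Real.log n + (H : ℝ) / X)).indicator F u ≤ 5 * H * F u
    have h2 : ∑ n ∈ S, (Set.Ioc (Real.log n) (Real.log n + (H : ℝ) / X)).indicator F u
        ≤ ∑ n ∈ Ioc X (2 * X), (Set.Ioc (Real.log n) (Real.log n + (H : ℝ) / X)).indicator F u :=
      Finset.sum_le_sum_of_subset_of_nonneg hS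
        (fun n _ _ => Set.indicator_nonneg (fun x _ => hF0 x) u)
    refine h2.trans ?_
    have h3 : ∑ n ∈ Ioc X (2 * X), (Set.Ioc (Real.log n) (Real.log n + (H : ℝ) / X)).indicator F u
        = ∑ n ∈ (Ioc X (2 * X)).filter (fun n : ℕ => Real.log n < u ∧
      u ≤ Real.log n + (H : ℝ) / X), F u := by
      rw [Finset.sum_filter]
      apply Finset.sum_congr rfl
      intro n _
      rw [Set.indicator_apply]
      simp only [Set.mem_Ioc]
    rw [h3, Finset.sum_const, nsmul_eq_mul]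
    exact mul_le_mul_of_nonneg_right (mult_le X H hX hH hHX u) (hF0 u)

/-- Cauchy-Schwarz on an interval -/
theorem cs (f : ℝ → ℝ) (hf : Continuous f) (a d : ℝ) (hd : 0 < d) :
    (∫ u in a..(a + d), f u) ^ 2 ≤ d * ∫ u in a..(a + d), (f u) ^ 2 := by
  set I := ∫ u in a..(a + d), f u with hI
  have h1 : 0 ≤ ∫ u in a..(a + d), (f u - I / d) ^ 2 :=
    intervalIntegral.integral_nonneg (by linarith) (fun u _ => sq_nonneg _)
  have h2 : ∫ u in a..(a + d), (f u - I / d) ^ 2 =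
      (∫ u in a..(a + d), (f u) ^ 2) - 2 * (I / d) * I + (I / d) ^ 2 * d := by
    have h3 : ∀ u, (f u - I / d) ^ 2 = (f u) ^ 2 - 2 * (I / d) * f u + (I / d) ^ 2 := by
      intro u; ring
    simp only [h3]
    rw [intervalIntegral.integral_add, intervalIntegral.integral_sub,
      intervalIntegral.integral_const_mul, intervalIntegral.integral_const]
    · rw [← hI]; simp; ring
    · exact (hf.pow 2).intervalIntegrable _ _
    · exact (continuous_const.mul hf).intervalIntegrable _ _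
    · exact ((hf.pow 2).sub (continuous_const.mul hf)).intervalIntegrable _ _
    · exact continuous_const.intervalIntegrable _ _
  rw [h2] at h1
  have h4 : (∫ u in a..(a + d), (f u) ^ 2) - 2 * (I / d) * I + (I / d) ^ 2 * d =
      (∫ u in a..(a + d), (f u) ^ 2) - I ^ 2 / d := by field_simp; ring
  rw [h4] at h1
  have h5 : I ^ 2 / d ≤ ∫ u in a..(a + d), (f u) ^ 2 := by linarith
  rw [div_le_iff₀ hd] at h5
  linarith

theorem gl_le {q : ℕ} (χ : DirichletCharacter ℂ q) (n : ℕ) : ‖gl χ n‖ ≤ 1 := by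
  unfold gl
  rw [norm_mul, norm_pow, norm_neg, norm_one, one_pow, one_mul]
  exact DirichletCharacter.norm_le_one χ _

theorem WW_cont (g : ℕ → ℂ) (X : ℕ) (T : ℝ) : Continuous (fun u => WW g X T u) := by
  unfold WW
  apply continuous_finsetSum
  intro n _
  apply Continuous.mul continuous_const
  apply Complex.continuous_ofReal.comp
  fun_prop

/-- one short average -/
theorem one (C : ℝ) (hC : 0 < C) (g : ℕ → ℂ) (hg : ∀ n, ‖g n‖ ≤ 1) (X H : ℕ) (T κ : ℝ)
    (hX : 1 ≤ X) (hH : 1 ≤ H) (hHX : H ≤ X) (hκ : 0 < κ) (hT : T = X / (κ * H))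
    (n : ℕ) (hn : X < n) (hn2 : n + H ≤ 2 * X)
    (hsh : ‖∑ m ∈ (Ioc X (2 * X)).filter (fun m : ℕ => (n : ℝ) < (m : ℝ) ∧ (m : ℝ) ≤ n + H),
      g m / m‖ ≤ (∫ u in (Real.log n)..(Real.log (n + H)), ‖WW g X T u‖) + C * (1 / T + 1 / X)) :
    (1 / (n : ℝ)) * ‖(∑ m ∈ Ioc n (n + H), g m) / H‖ ^ 2 ≤
      16 / H * (∫ u in (Real.log n)..(Real.log n + (H : ℝ) / X), ‖WW g X T u‖ ^ 2) +
      (1 / (X : ℝ)) * (16 * C ^ 2 * (κ + 1 / H) ^ 2 + 2 * ((H : ℝ) / X) ^ 2) := by
  have hX' : (1 : ℝ) ≤ X := by exact_mod_cast hX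
  have hH' : (1 : ℝ) ≤ H := by exact_mod_cast hH
  have hHX' : (H : ℝ) ≤ X := by exact_mod_cast hHX
  have hnX : (X : ℝ) < n := by exact_mod_cast hn
  have hn2' : (n : ℝ) + H ≤ 2 * X := by exact_mod_cast hn2
  have hnpos : (0 : ℝ) < n := by linarith
  have hXpos : (0 : ℝ) < X := by linarith
  have hHpos : (0 : ℝ) < H := by linarith
  have hd0 : (0 : ℝ) < (H : ℝ) / X := by positivity
  -- the filter is the window
  have hfil : (Ioc X (2 * X)).filter (fun m : ℕ => (n : ℝ) < (m : ℝ) ∧ (m : ℝ) ≤ n + H) =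
      Ioc n (n + H) := by
    ext m
    simp only [Finset.mem_filter, Finset.mem_Ioc]
    constructor
    · rintro ⟨_, h1, h2⟩
      constructor
      · exact_mod_cast h1
      · exact_mod_cast h2
    · rintro ⟨h1, h2⟩
      refine ⟨⟨by omega, by omega⟩, by exact_mod_cast h1, by exact_mod_cast h2⟩
  rw [hfil] at hsh
  set P := ‖∑ m ∈ Ioc n (n + H), g m / (m : ℂ)‖ with hP
  set J := ∫ u in (Real.log n)..(Real.log n + (H : ℝ) / X), ‖WW g X T u‖ ^ 2 with hJ
  have hWc : Continuous (fun u => ‖WW g X T u‖) := (WW_cont g X T).norm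
  -- enlarge the interval
  have hlog : Real.log (n + H) ≤ Real.log n + (H : ℝ) / X := by
    have h1 : ((n : ℝ) + H) = n * (1 + H / n) := by field_simp
    rw [h1, Real.log_mul hnpos.ne' (by positivity)]
    have h2 : Real.log (1 + (H : ℝ) / n) ≤ (H : ℝ) / n := by
      have := Real.log_le_sub_one_of_pos (x := 1 + (H : ℝ) / n) (by positivity)
      linarith
    have h3 : (H : ℝ) / n ≤ (H : ℝ) / X := by
      apply div_le_div_of_nonneg_left hHpos.le hXpos hnX.le
    linarith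
  have hlog0 : Real.log n ≤ Real.log (n + H) := Real.log_le_log hnpos (by linarith)
  have hint : (∫ u in (Real.log n)..(Real.log (n + H)), ‖WW g X T u‖) ≤
      ∫ u in (Real.log n)..(Real.log n + (H : ℝ) / X), ‖WW g X T u‖ := by
    apply intervalIntegral.integral_mono_interval le_rfl hlog0 hlog
    · exact Filter.Eventually.of_forall (fun u => norm_nonneg _)
    · exact hWc.intervalIntegrable _ _
  have hcs := cs (fun u => ‖WW g X T u‖) hWc (Real.log n) ((H : ℝ) / X) hd0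
  have hcs' : (∫ u in (Real.log n)..(Real.log n + (H : ℝ) / X), ‖WW g X T u‖) ^ 2 ≤
      (H : ℝ) / X * J := hcs
  set I := ∫ u in (Real.log n)..(Real.log n + (H : ℝ) / X), ‖WW g X T u‖ with hI
  have hI0 : 0 ≤ I := intervalIntegral.integral_nonneg (by linarith) (fun u _ => norm_nonneg _)
  have hT1 : 1 / T + 1 / X = (κ * H + 1) / X := by
    rw [hT]; field_simp
  have hP1 : P ≤ I + C * ((κ * H + 1) / X) := by
    rw [hT1] at hsh
    linarith
  have hP0 : 0 ≤ P := norm_nonneg _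
  have hP2 : P ^ 2 ≤ 2 * ((H : ℝ) / X) * J + 2 * (C * ((κ * H + 1) / X)) ^ 2 := by
    have h4 : P ^ 2 ≤ (I + C * ((κ * H + 1) / X)) ^ 2 := pow_le_pow_left₀ hP0 hP1 2
    nlinarith [sq_nonneg (I - C * ((κ * H + 1) / X))]
  -- from sums of g m / m to sums of g m
  have hD : ‖(∑ m ∈ Ioc n (n + H), g m) / (H : ℂ)‖ ≤ 2 * X / H * P + (H : ℝ) / X := by
    have h5 : ∑ m ∈ Ioc n (n + H), g m = (n : ℂ) * ∑ m ∈ Ioc n (n + H), g m / (m : ℂ) +
        ∑ m ∈ Ioc n (n + H), g m * (((m : ℂ) - n) / m) := by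
      rw [Finset.mul_sum, ← Finset.sum_add_distrib]
      apply Finset.sum_congr rfl
      intro m hm
      have hm0 : (m : ℂ) ≠ 0 := by
        rw [Finset.mem_Ioc] at hm
        have : m ≠ 0 := by omega
        exact_mod_cast this
      field_simp
      ring
    have h6 : ‖∑ m ∈ Ioc n (n + H), g m * (((m : ℂ) - n) / m)‖ ≤ H * ((H : ℝ) / X) := by
      have h7 : ∀ m ∈ Ioc n (n + H), ‖g m * (((m : ℂ) - n) / m)‖ ≤ (H : ℝ) / X := by
        intro m hm
        rw [Finset.mem_Ioc] at hm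
        have hmn : (n : ℝ) < m := by exact_mod_cast hm.1
        have hmn2 : (m : ℝ) ≤ n + H := by exact_mod_cast hm.2
        have h8 : ‖(((m : ℂ) - n) / m)‖ = ((m : ℝ) - n) / m := by
          have : (((m : ℂ) - n) / m) = ((((m : ℝ) - n) / m : ℝ) : ℂ) := by push_cast; ring
          rw [this, Complex.norm_real, Real.norm_of_nonneg]
          apply div_nonneg <;> linarith
        rw [norm_mul, h8]
        have h9 : ((m : ℝ) - n) / m ≤ (H : ℝ) / X := by
          apply div_le_div₀ hHpos.le (by linarith) hXpos (by linarith)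
        have h10 : 0 ≤ ((m : ℝ) - n) / m := by apply div_nonneg <;> linarith
        calc ‖g m‖ * (((m : ℝ) - n) / m) ≤ 1 * (((m : ℝ) - n) / m) :=
              mul_le_mul_of_nonneg_right (hg m) h10
          _ ≤ (H : ℝ) / X := by rw [one_mul]; exact h9
      have h11 := norm_sum_le_of_le _ h7
      rw [Finset.sum_const, Nat.card_Ioc, nsmul_eq_mul, Nat.add_sub_cancel_left] at h11
      exact h11
    rw [norm_div, Complex.norm_natCast, h5, div_le_iff₀ hHpos]
    refine (norm_add_le _ _).trans ?_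
    rw [norm_mul, Complex.norm_natCast, ← hP]
    have h12 : (n : ℝ) * P ≤ 2 * X * P := mul_le_mul_of_nonneg_right (by linarith) hP0
    calc (n : ℝ) * P + ‖∑ m ∈ Ioc n (n + H), g m * (((m : ℂ) - n) / m)‖
        ≤ 2 * X * P + H * ((H : ℝ) / X) := add_le_add h12 h6
      _ = (2 * X / H * P + (H : ℝ) / X) * H := by field_simp
  have hD0 : 0 ≤ ‖(∑ m ∈ Ioc n (n + H), g m) / (H : ℂ)‖ := norm_nonneg _
  have hJ0 : 0 ≤ J := intervalIntegral.integral_nonneg (by linarith) (fun u _ => sq_nonneg _)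
  have hD2 : ‖(∑ m ∈ Ioc n (n + H), g m) / (H : ℂ)‖ ^ 2 ≤
      16 * X / H * J + (16 * C ^ 2 * (κ + 1 / H) ^ 2 + 2 * ((H : ℝ) / X) ^ 2) := by
    have h13 : ‖(∑ m ∈ Ioc n (n + H), g m) / (H : ℂ)‖ ^ 2 ≤ (2 * X / H * P + (H : ℝ) / X) ^ 2 :=
      pow_le_pow_left₀ hD0 hD 2
    have h14 : (2 * X / H * P + (H : ℝ) / X) ^ 2 ≤ 2 * (2 * X / H) ^ 2 * P ^ 2 +
        2 * ((H : ℝ) / X) ^ 2 := by
      nlinarith [sq_nonneg (2 * X / H * P - (H : ℝ) / X)]
    have h15 : 2 * (2 * X / H) ^ 2 * P ^ 2 ≤ 2 * (2 * X / H) ^ 2 *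
        (2 * ((H : ℝ) / X) * J + 2 * (C * ((κ * H + 1) / X)) ^ 2) :=
      mul_le_mul_of_nonneg_left hP2 (by positivity)
    have h16 : 2 * (2 * X / H) ^ 2 *
        (2 * ((H : ℝ) / X) * J + 2 * (C * ((κ * H + 1) / X)) ^ 2) =
        16 * X / H * J + 16 * C ^ 2 * (κ + 1 / H) ^ 2 := by
      field_simp
      ring
    linarith
  calc (1 / (n : ℝ)) * ‖(∑ m ∈ Ioc n (n + H), g m) / (H : ℂ)‖ ^ 2
      ≤ (1 / (X : ℝ)) * ‖(∑ m ∈ Ioc n (n + H), g m) / (H : ℂ)‖ ^ 2 := by
        apply mul_le_mul_of_nonneg_right _ (sq_nonneg _)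
        apply one_div_le_one_div_of_le hXpos hnX.le
    _ ≤ (1 / (X : ℝ)) * (16 * X / H * J +
        (16 * C ^ 2 * (κ + 1 / H) ^ 2 + 2 * ((H : ℝ) / X) ^ 2)) :=
        mul_le_mul_of_nonneg_left hD2 (by positivity)
    _ = 16 / H * J + (1 / (X : ℝ)) * (16 * C ^ 2 * (κ + 1 / H) ^ 2 + 2 * ((H : ℝ) / X) ^ 2) := by
        field_simp

end WinAux

open WinAux

theorem win (h1 : StGau) (h2 : StTail) (h3 : StSh) : StWin := by
  intro q _ χ ε hε
  obtain ⟨C, hC, h3⟩ := h3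
  obtain ⟨H1, hH1, X1, h2⟩ := h2 q χ (ε / 320) (by positivity)
  have hsε : 0 < Real.sqrt ε := Real.sqrt_pos.mpr hε
  set κ := Real.sqrt ε / (16 * C) with hκdef
  have hκ : 0 < κ := by positivity
  refine ⟨⌈H1 / κ⌉₊ + 1, fun H hH => ⟨max (max X1 (H + 1)) (max ⌈κ * H⌉₊ ⌈6 * H / ε⌉₊), fun X hX => ?_⟩⟩
  have hXX1 : X1 ≤ X := le_trans (le_trans (le_max_left _ _) (le_max_left _ _)) hX
  have hXH : H + 1 ≤ X := le_trans (le_trans (le_max_right _ _) (le_max_left _ _)) hX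
  have hXκ : κ * H ≤ X := by
    have := le_trans (le_trans (le_max_left _ _) (le_max_right _ _)) hX
    exact Nat.ceil_le.mp this
  have hXε : 6 * H / ε ≤ X := by
    have := le_trans (le_trans (le_max_right _ _) (le_max_right _ _)) hX
    exact Nat.ceil_le.mp this
  have hX1 : 1 ≤ X := by omega
  have hH1' : 1 ≤ H := by omega
  have hX1' : (1 : ℝ) ≤ X := by exact_mod_cast hX1
  have hHr : (1 : ℝ) ≤ H := by exact_mod_cast hH1'
  have hHXr : (H : ℝ) ≤ X := by exact_mod_cast (by omega : H ≤ X)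
  have hXpos : (0 : ℝ) < X := by linarith
  have hHpos : (0 : ℝ) < H := by linarith
  have hκH : H1 ≤ κ * H := by
    have h4 : (H1 / κ) ≤ (H : ℝ) := by
      refine (Nat.le_ceil _).trans ?_
      exact_mod_cast (by omega : ⌈H1 / κ⌉₊ ≤ H)
    rw [div_le_iff₀ hκ] at h4
    linarith
  have hκHpos : 0 < κ * H := by positivity
  have hinvH : 1 / (H : ℝ) ≤ κ := by
    rw [div_le_iff₀ hHpos]; linarith
  set T : ℝ := X / (κ * H) with hT
  have hT1 : 1 ≤ T := by rw [hT, le_div_iff₀ hκHpos]; linarith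
  have hT2 : T ≤ X / H1 := by
    rw [hT]
    apply div_le_div_of_nonneg_left hXpos.le (by linarith) hκH
  have hTpos : 0 < T := by linarith
  set g : ℕ → ℂ := gl χ with hg
  have hg1 : ∀ n, ‖g n‖ ≤ 1 := gl_le χ
  -- Plancherel
  have hWW : ∀ u, WW g X T u = ∑ n ∈ Ioc X (2 * X), (g n / n) *
      ((T * Real.exp (-(T ^ 2 * (u - Real.log n) ^ 2 / 2)) : ℝ) : ℂ) := fun u => rfl
  obtain ⟨hInt, hPl⟩ := h1 (Ioc X (2 * X)) (fun n => g n / n) T hTpos
  have hInt' : Integrable (fun u => ‖WW g X T u‖ ^ 2) := hInt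
  have hPl' : ∫ u, ‖WW g X T u‖ ^ 2 ≤ ε / 320 := by
    have h4 : ∫ u, ‖WW g X T u‖ ^ 2 = ∫ t : ℝ, Real.exp (-(t / T) ^ 2) * ‖FX χ X t‖ ^ 2 := by
      refine Eq.trans hPl ?_
      congr 1
      ext t
      have h5 : ∑ n ∈ Ioc X (2 * X), g n / n * ch t n = FX χ X t := by
        unfold FX
        apply Finset.sum_congr rfl
        intro n _
        rw [hg]; ring
      rw [h5]
    rw [h4]
    exact h2 X T hXX1 hT1 hT2
  -- split
  set D : ℕ → ℝ := fun n => (1 / (n : ℝ)) * ‖(∑ m ∈ Ioc n (n + H), g m) / (H : ℂ)‖ ^ 2 with hD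
  have hD1 : ∀ n, X < n → D n ≤ 1 / X := by
    intro n hn
    have hnX : (X : ℝ) < n := by exact_mod_cast hn
    have h6 : ‖(∑ m ∈ Ioc n (n + H), g m) / (H : ℂ)‖ ≤ 1 := by
      rw [norm_div, Complex.norm_natCast, div_le_one hHpos]
      have h7 := norm_sum_le_of_le (Ioc n (n + H)) (fun m _ => hg1 m)
      rw [Finset.sum_const, Nat.card_Ioc, nsmul_eq_mul, Nat.add_sub_cancel_left, mul_one] at h7
      exact h7
    have h8 : ‖(∑ m ∈ Ioc n (n + H), g m) / (H : ℂ)‖ ^ 2 ≤ 1 := pow_le_one₀ (norm_nonneg _) h6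
    calc D n ≤ (1 / (n : ℝ)) * 1 := mul_le_mul_of_nonneg_left h8 (by positivity)
      _ = 1 / (n : ℝ) := mul_one _
      _ ≤ 1 / X := one_div_le_one_div_of_le hXpos hnX.le
  have hsplit : ∑ n ∈ Ioc X (2 * X), D n = ∑ n ∈ Ioc X (2 * X - H), D n +
      ∑ n ∈ Ioc (2 * X - H) (2 * X), D n := by
    rw [← Finset.sum_union]
    · congr 1
      ext n
      simp only [Finset.mem_union, Finset.mem_Ioc]
      omega
    · rw [Finset.disjoint_left]
      intro n h4 h5
      rw [Finset.mem_Ioc] at h4 h5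
      omega
  have hlast : ∑ n ∈ Ioc (2 * X - H) (2 * X), D n ≤ H * (1 / X) := by
    have h4 : ∑ n ∈ Ioc (2 * X - H) (2 * X), D n ≤ ∑ n ∈ Ioc (2 * X - H) (2 * X), (1 / (X : ℝ)) := by
      apply Finset.sum_le_sum
      intro n hn
      rw [Finset.mem_Ioc] at hn
      exact hD1 n (by omega)
    refine h4.trans (le_of_eq ?_)
    rw [Finset.sum_const, Nat.card_Ioc, nsmul_eq_mul]
    congr 2
    have : 2 * X - (2 * X - H) = H := by omega
    rw [this]
  set E : ℝ := 16 * C ^ 2 * (κ + 1 / H) ^ 2 + 2 * ((H : ℝ) / X) ^ 2 with hE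
  have hE0 : 0 ≤ E := by positivity
  have hmain : ∑ n ∈ Ioc X (2 * X - H), D n ≤ ε / 4 + E := by
    have h4 : ∑ n ∈ Ioc X (2 * X - H), D n ≤ ∑ n ∈ Ioc X (2 * X - H),
        (16 / H * (∫ u in (Real.log n)..(Real.log n + (H : ℝ) / X), ‖WW g X T u‖ ^ 2) +
          (1 / (X : ℝ)) * E) := by
      apply Finset.sum_le_sum
      intro n hn
      rw [Finset.mem_Ioc] at hn
      have hnX : (X : ℝ) < n := by exact_mod_cast hn.1
      have hn2 : n + H ≤ 2 * X := by omega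
      have hn2' : (n : ℝ) + H ≤ 2 * X := by exact_mod_cast hn2
      exact one C hC g hg1 X H T κ hX1 hH1' (by omega) hκ hT n hn.1 hn2
        (h3 g X H T n hg1 hX1 hH1' (by omega) hT1 hnX.le (by linarith))
    refine h4.trans ?_
    rw [Finset.sum_add_distrib, ← Finset.mul_sum]
    have h5 := sum_win X H hX1 hH1' (by omega) (fun u => ‖WW g X T u‖ ^ 2) (fun u => sq_nonneg _)
      hInt' (Ioc X (2 * X - H)) (fun n hn => by
        rw [Finset.mem_Ioc] at hn ⊢; omega)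
    have h6 : 16 / (H : ℝ) * ∑ n ∈ Ioc X (2 * X - H),
        (∫ u in (Real.log n)..(Real.log n + (H : ℝ) / X), ‖WW g X T u‖ ^ 2) ≤ ε / 4 := by
      calc 16 / (H : ℝ) * ∑ n ∈ Ioc X (2 * X - H),
            (∫ u in (Real.log n)..(Real.log n + (H : ℝ) / X), ‖WW g X T u‖ ^ 2)
          ≤ 16 / (H : ℝ) * (5 * H * ∫ u, ‖WW g X T u‖ ^ 2) :=
            mul_le_mul_of_nonneg_left h5 (by positivity)
        _ = 80 * ∫ u, ‖WW g X T u‖ ^ 2 := by field_simp; ring
        _ ≤ 80 * (ε / 320) := mul_le_mul_of_nonneg_left hPl' (by norm_num)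
        _ = ε / 4 := by ring
    have h7 : ∑ n ∈ Ioc X (2 * X - H), (1 / (X : ℝ)) * E ≤ E := by
      rw [Finset.sum_const, Nat.card_Ioc, nsmul_eq_mul]
      have h8 : ((2 * X - H - X : ℕ) : ℝ) ≤ X := by exact_mod_cast (by omega : 2 * X - H - X ≤ X)
      calc ((2 * X - H - X : ℕ) : ℝ) * ((1 / (X : ℝ)) * E) ≤ X * ((1 / (X : ℝ)) * E) :=
            mul_le_mul_of_nonneg_right h8 (by positivity)
        _ = E := by field_simp
    linarith
  -- numerics
  have hκE : 16 * C ^ 2 * (κ + 1 / H) ^ 2 ≤ ε / 4 := by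
    have h4 : (κ + 1 / (H : ℝ)) ^ 2 ≤ (2 * κ) ^ 2 := by
      apply pow_le_pow_left₀ (by positivity) (by linarith)
    have h5 : 16 * C ^ 2 * (2 * κ) ^ 2 = ε / 4 := by
      rw [hκdef]
      have h6 : (2 * (Real.sqrt ε / (16 * C))) ^ 2 = 4 * (Real.sqrt ε) ^ 2 / (256 * C ^ 2) := by
        field_simp; ring
      rw [h6, Real.sq_sqrt hε.le]
      field_simp; ring
    calc 16 * C ^ 2 * (κ + 1 / H) ^ 2 ≤ 16 * C ^ 2 * (2 * κ) ^ 2 :=
          mul_le_mul_of_nonneg_left h4 (by positivity)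
      _ = ε / 4 := h5
  have hHX3 : 3 * ((H : ℝ) / X) ≤ ε / 2 := by
    rw [div_le_iff₀ hε] at hXε
    have : (H : ℝ) / X ≤ ε / 6 := by
      rw [div_le_iff₀ hXpos]; linarith
    linarith
  have hHX2 : 2 * ((H : ℝ) / X) ^ 2 ≤ 2 * ((H : ℝ) / X) := by
    have h4 : (H : ℝ) / X ≤ 1 := by rw [div_le_one hXpos]; exact hHXr
    have h5 : (0 : ℝ) ≤ (H : ℝ) / X := by positivity
    nlinarith
  have hlast' : (H : ℝ) * (1 / X) = (H : ℝ) / X := by ring
  show ∑ n ∈ Ioc X (2 * X), D n ≤ ε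
  rw [hsplit]
  rw [hlast'] at hlast
  linarith

end Pool.Agent.Helper68.MR
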