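import Pool.Agent.Helper68.MR.St

/-! # mean value theorem for Dirichlet polynomials -/

set_option autoImplicit false

namespace Pool.Agent.Helper68.MR

open Finset MeasureTheory Pool.Agent.Helper2.MR

namespace MVx

lemma kern (T c : ℝ) (hT : 0 < T) :
    Integrable (fun t : ℝ => ((Real.exp (-(t / T) ^ 2) : ℝ) : ℂ) *
      Complex.exp (((-(t * c) : ℝ) : ℂ) * Complex.I)) ∧
    ‖∫ t : ℝ, ((Real.exp (-(t / T) ^ 2) : ℝ) : ℂ) *
      Complex.exp (((-(t * c) : ℝ) : ℂ) * Complex.I)‖ =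
      √Real.pi * T * Real.exp (-(T ^ 2 * c ^ 2 / 4)) := by
  have hb : (0:ℝ) < (((1 / T ^ 2 : ℝ) : ℂ)).re := by
    rw [Complex.ofReal_re]; positivity
  have hfun : (fun t : ℝ => ((Real.exp (-(t / T) ^ 2) : ℝ) : ℂ) *
      Complex.exp (((-(t * c) : ℝ) : ℂ) * Complex.I)) =
      fun x : ℝ => Complex.exp (Complex.I * ((-c : ℝ) : ℂ) * x) *
        Complex.exp (-((1 / T ^ 2 : ℝ) : ℂ) * x ^ 2) := by
    funext t
    rw [mul_comm, Complex.ofReal_exp]
    congr 2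
    · push_cast; ring
    · push_cast; ring
  constructor
  · rw [hfun]
    have h := integrable_cexp_quadratic hb (Complex.I * ((-c : ℝ) : ℂ)) 0
    refine h.congr (Filter.Eventually.of_forall fun x => ?_)
    show Complex.exp _ = Complex.exp _ * Complex.exp _
    rw [← Complex.exp_add]
    congr 1
    ring
  · rw [hfun, fourierIntegral_gaussian hb, norm_mul]
    congr 1
    · have h1 : ((Real.pi : ℂ) / ((1 / T ^ 2 : ℝ) : ℂ)) = ((Real.pi * T ^ 2 : ℝ) : ℂ) := by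
        have : (T : ℂ) ≠ 0 := by exact_mod_cast hT.ne'
        push_cast
        field_simp
      rw [h1]
      have h2 : ‖((Real.pi * T ^ 2 : ℝ) : ℂ) ^ (1 / 2 : ℂ)‖ = (Real.pi * T ^ 2) ^ (1 / 2 : ℝ) := by
        have h3 : (1 / 2 : ℂ) = ((1 / 2 : ℝ) : ℂ) := by push_cast; ring
        rw [h3, ← Complex.ofReal_cpow (by positivity), Complex.norm_real, Real.norm_eq_abs,
          abs_of_nonneg (by positivity)]
      rw [h2, ← Real.sqrt_eq_rpow, Real.sqrt_mul Real.pi_pos.le, Real.sqrt_sq hT.le]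
    · rw [Complex.norm_exp]
      congr 1
      have h4 : (-(((-c : ℝ) : ℂ)) ^ 2 / (4 * ((1 / T ^ 2 : ℝ) : ℂ))) =
          ((-(T ^ 2 * c ^ 2 / 4) : ℝ) : ℂ) := by
        have : (T : ℂ) ≠ 0 := by exact_mod_cast hT.ne'
        push_cast
        field_simp
      rw [h4, Complex.ofReal_re]

lemma one_div_one_sub_exp (x : ℝ) (hx : 0 < x) : (1 - Real.exp (-x))⁻¹ ≤ 1 + 1 / x := by
  have h1 : Real.exp (-x) ≤ 1 / (1 + x) := by
    rw [Real.exp_neg, ← one_div]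
    apply one_div_le_one_div_of_le (by linarith)
    linarith [Real.add_one_le_exp x]
  have h2 : x / (1 + x) ≤ 1 - Real.exp (-x) := by
    have : x / (1 + x) = 1 - 1 / (1 + x) := by field_simp; ring
    linarith
  have h3 : 0 < x / (1 + x) := by positivity
  calc (1 - Real.exp (-x))⁻¹ ≤ (x / (1 + x))⁻¹ := inv_anti₀ h3 h2
    _ = 1 + 1 / x := by field_simp; ring

lemma two_sided (r : ℝ) (h0 : 0 ≤ r) (h1 : r < 1) (N n : ℕ) (g : ℕ → ℝ)
    (hg1 : ∀ m, m ≤ n → g m ≤ r ^ (n - m)) (hg2 : ∀ m, n ≤ m → g m ≤ r ^ (m - n)) :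
    ∑ m ∈ Icc 1 N, g m ≤ 2 * (1 - r)⁻¹ := by
  have hs : Summable (fun j : ℕ => r ^ j) := summable_geometric_of_lt_one h0 h1
  have ht := tsum_geometric_of_lt_one h0 h1
  rw [← Finset.sum_filter_add_sum_filter_not (Icc 1 N) (fun m => m ≤ n)]
  have e1 : ∑ m ∈ (Icc 1 N).filter (fun m => m ≤ n), g m ≤ (1 - r)⁻¹ := by
    calc ∑ m ∈ (Icc 1 N).filter (fun m => m ≤ n), g m
        ≤ ∑ m ∈ (Icc 1 N).filter (fun m => m ≤ n), r ^ (n - m) :=
          Finset.sum_le_sum fun m hm => hg1 m (Finset.mem_filter.1 hm).2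
      _ = ∑ j ∈ ((Icc 1 N).filter (fun m => m ≤ n)).image (fun m => n - m), r ^ j := by
          rw [Finset.sum_image]
          intro a ha b hb hab
          have h1 := (Finset.mem_filter.1 ha).2
          have h2 := (Finset.mem_filter.1 hb).2
          simp only at hab
          omega
      _ ≤ ∑' j : ℕ, r ^ j := hs.sum_le_tsum _ fun _ _ => pow_nonneg h0 _
      _ = _ := ht
  have e2 : ∑ m ∈ (Icc 1 N).filter (fun m => ¬ m ≤ n), g m ≤ (1 - r)⁻¹ := by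
    calc ∑ m ∈ (Icc 1 N).filter (fun m => ¬ m ≤ n), g m
        ≤ ∑ m ∈ (Icc 1 N).filter (fun m => ¬ m ≤ n), r ^ (m - n) :=
          Finset.sum_le_sum fun m hm => hg2 m (by have := (Finset.mem_filter.1 hm).2; omega)
      _ = ∑ j ∈ ((Icc 1 N).filter (fun m => ¬ m ≤ n)).image (fun m => m - n), r ^ j := by
          rw [Finset.sum_image]
          intro a ha b hb hab
          have h1 := (Finset.mem_filter.1 ha).2
          have h2 := (Finset.mem_filter.1 hb).2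
          simp only at hab
          omega
      _ ≤ ∑' j : ℕ, r ^ j := hs.sum_le_tsum _ fun _ _ => pow_nonneg h0 _
      _ = _ := ht
  linarith

/-- `|log m - log n| ≥ |m - n| / N` -/
lemma log_sub (m n N : ℕ) (hm : 1 ≤ m) (hmn : m ≤ n) (hn : n ≤ N) :
    ((n - m : ℕ) : ℝ) / N ≤ Real.log n - Real.log m := by
  have hm' : (0:ℝ) < m := by exact_mod_cast hm
  have hn' : (0:ℝ) < n := by exact_mod_cast (lt_of_lt_of_le hm hmn)
  have hN' : (0:ℝ) < N := by exact_mod_cast (lt_of_lt_of_le (lt_of_lt_of_le hm hmn) hn)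
  have h1 : Real.log (m / n) ≤ m / n - 1 := by
    exact Real.log_le_sub_one_of_pos (by positivity)
  rw [Real.log_div hm'.ne' hn'.ne'] at h1
  have h2 : ((n - m : ℕ) : ℝ) = (n : ℝ) - m := by push_cast [hmn]; ring
  rw [h2]
  have h3 : ((n : ℝ) - m) / N ≤ ((n : ℝ) - m) / n := by
    apply div_le_div_of_nonneg_left _ hn' (by exact_mod_cast hn)
    have : (m : ℝ) ≤ n := by exact_mod_cast hmn
    linarith
  have h4 : ((n : ℝ) - m) / n = 1 - m / n := by field_simp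
  linarith

lemma gauss_geo (T : ℝ) (N j : ℕ) (hT : 0 < T) (hN : 1 ≤ N) (x : ℝ) (hx : (j : ℝ) / N ≤ x) :
    Real.exp (-(T ^ 2 * x ^ 2 / 4)) ≤ Real.exp 1 * Real.exp (-(T / N)) ^ j := by
  have hN' : (0:ℝ) < N := by exact_mod_cast hN
  rw [← Real.exp_nat_mul, ← Real.exp_add, Real.exp_le_exp]
  have h0 : (0:ℝ) ≤ (j : ℝ) / N := by positivity
  have h1 : T * ((j : ℝ) / N) ≤ T * x := mul_le_mul_of_nonneg_left hx hT.le
  have h2 : (j : ℝ) * -(T / N) = -(T * ((j : ℝ) / N)) := by ring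
  rw [h2]
  nlinarith [sq_nonneg (T * x / 2 - 1), h1]

lemma row (T : ℝ) (N n : ℕ) (hT : 0 < T) (hn : n ∈ Icc 1 N) :
    ∑ m ∈ Icc 1 N, Real.exp (-(T ^ 2 * (Real.log m - Real.log n) ^ 2 / 4)) ≤
      Real.exp 1 * (2 * (1 + N / T)) := by
  have hn1 := Finset.mem_Icc.1 hn
  have hN : 1 ≤ N := hn1.1.trans hn1.2
  have hN' : (0:ℝ) < N := by exact_mod_cast hN
  have hx : 0 < T / N := by positivity
  have key : ∑ m ∈ Icc 1 N, (if 1 ≤ m ∧ m ≤ N then
      Real.exp (-1) * Real.exp (-(T ^ 2 * (Real.log m - Real.log n) ^ 2 / 4)) else 0) ≤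
      2 * (1 - Real.exp (-(T / N)))⁻¹ := by
    apply two_sided (Real.exp (-(T / N))) (Real.exp_pos _).le _ N n
    · intro m hm
      split_ifs with h
      · have h1 := log_sub m n N h.1 hm hn1.2
        have h2 := gauss_geo T N (n - m) hT hN _ h1
        have h3 : (Real.log m - Real.log n) ^ 2 = (Real.log n - Real.log m) ^ 2 := by ring
        rw [h3]
        calc Real.exp (-1) * Real.exp (-(T ^ 2 * (Real.log n - Real.log m) ^ 2 / 4))
            ≤ Real.exp (-1) * (Real.exp 1 * Real.exp (-(T / N)) ^ (n - m)) :=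
              mul_le_mul_of_nonneg_left h2 (Real.exp_pos _).le
          _ = Real.exp (-(T / N)) ^ (n - m) := by
              rw [← mul_assoc, ← Real.exp_add]; simp
      · positivity
    · intro m hm
      split_ifs with h
      · have h1 := log_sub n m N hn1.1 hm h.2
        have h2 := gauss_geo T N (m - n) hT hN _ h1
        calc Real.exp (-1) * Real.exp (-(T ^ 2 * (Real.log m - Real.log n) ^ 2 / 4))
            ≤ Real.exp (-1) * (Real.exp 1 * Real.exp (-(T / N)) ^ (m - n)) :=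
              mul_le_mul_of_nonneg_left h2 (Real.exp_pos _).le
          _ = Real.exp (-(T / N)) ^ (m - n) := by
              rw [← mul_assoc, ← Real.exp_add]; simp
      · positivity
    · rw [Real.exp_lt_one_iff]; linarith
  have e1 : ∑ m ∈ Icc 1 N, (if 1 ≤ m ∧ m ≤ N then
      Real.exp (-1) * Real.exp (-(T ^ 2 * (Real.log m - Real.log n) ^ 2 / 4)) else 0) =
      Real.exp (-1) * ∑ m ∈ Icc 1 N, Real.exp (-(T ^ 2 * (Real.log m - Real.log n) ^ 2 / 4)) := by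
    rw [Finset.mul_sum]
    refine Finset.sum_congr rfl fun m hm => ?_
    rw [if_pos (Finset.mem_Icc.1 hm)]
  rw [e1] at key
  have h5 := one_div_one_sub_exp _ hx
  have h6 : 1 / (T / N) = N / T := by field_simp
  rw [h6] at h5
  have h7 : ∑ m ∈ Icc 1 N, Real.exp (-(T ^ 2 * (Real.log m - Real.log n) ^ 2 / 4)) =
      Real.exp 1 * (Real.exp (-1) *
        ∑ m ∈ Icc 1 N, Real.exp (-(T ^ 2 * (Real.log m - Real.log n) ^ 2 / 4))) := by
    rw [← mul_assoc, ← Real.exp_add]; simp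
  rw [h7]
  apply mul_le_mul_of_nonneg_left _ (Real.exp_pos _).le
  linarith

lemma ch_mul_conj (t : ℝ) (m n : ℕ) :
    ch t m * (starRingEnd ℂ) (ch t n) =
      Complex.exp (((-(t * (Real.log m - Real.log n)) : ℝ) : ℂ) * Complex.I) := by
  unfold ch
  rw [← Complex.exp_conj, ← Complex.exp_add]
  congr 1
  simp only [map_mul, Complex.conj_ofReal, Complex.conj_I]
  push_cast
  ring

lemma expand (T : ℝ) (N : ℕ) (a : ℕ → ℂ) (t : ℝ) :
    ((Real.exp (-(t / T) ^ 2) * ‖∑ n ∈ Icc 1 N, a n * ch t n‖ ^ 2 : ℝ) : ℂ) =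
      ∑ x ∈ Icc 1 N ×ˢ Icc 1 N, (a x.1 * (starRingEnd ℂ) (a x.2)) *
        (((Real.exp (-(t / T) ^ 2) : ℝ) : ℂ) *
      Complex.exp (((-(t * (Real.log x.1 - Real.log x.2)) : ℝ) : ℂ) * Complex.I)) := by
  have h1 : ((‖∑ n ∈ Icc 1 N, a n * ch t n‖ ^ 2 : ℝ) : ℂ) =
      (∑ n ∈ Icc 1 N, a n * ch t n) * (starRingEnd ℂ) (∑ n ∈ Icc 1 N, a n * ch t n) := by
    rw [Complex.mul_conj, Complex.normSq_eq_norm_sq]
  rw [Complex.ofReal_mul, h1, map_sum, Finset.sum_mul_sum, ← Finset.sum_product', Finset.mul_sum]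
  refine Finset.sum_congr rfl fun x _ => ?_
  rw [← ch_mul_conj, map_mul]
  ring

lemma main (T : ℝ) (N : ℕ) (a : ℕ → ℂ) (hT : 0 < T) :
    Integrable (fun t : ℝ => Real.exp (-(t / T) ^ 2) * ‖∑ n ∈ Icc 1 N, a n * ch t n‖ ^ 2) ∧
    ∫ t : ℝ, Real.exp (-(t / T) ^ 2) * ‖∑ n ∈ Icc 1 N, a n * ch t n‖ ^ 2 ≤
      √Real.pi * T * (Real.exp 1 * (2 * (1 + N / T))) * ∑ n ∈ Icc 1 N, ‖a n‖ ^ 2 := by
  have hint : ∀ x ∈ Icc 1 N ×ˢ Icc 1 N, Integrable (fun t : ℝ =>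
      (a x.1 * (starRingEnd ℂ) (a x.2)) * (((Real.exp (-(t / T) ^ 2) : ℝ) : ℂ) *
      Complex.exp (((-(t * (Real.log x.1 - Real.log x.2)) : ℝ) : ℂ) * Complex.I))) :=
    fun x _ => ((kern T _ hT).1).const_mul _
  have hI : Integrable (fun t : ℝ =>
      ((Real.exp (-(t / T) ^ 2) * ‖∑ n ∈ Icc 1 N, a n * ch t n‖ ^ 2 : ℝ) : ℂ)) := by
    simp_rw [expand]
    exact integrable_finsetSum _ hint
  have hI2 : Integrable (fun t : ℝ =>
      Real.exp (-(t / T) ^ 2) * ‖∑ n ∈ Icc 1 N, a n * ch t n‖ ^ 2) := by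
    have := hI.re
    exact this.congr (Filter.Eventually.of_forall fun t => Complex.ofReal_re _)
  refine ⟨hI2, ?_⟩
  have h1 : ((∫ t : ℝ, Real.exp (-(t / T) ^ 2) * ‖∑ n ∈ Icc 1 N, a n * ch t n‖ ^ 2 : ℝ) : ℂ) =
      ∑ x ∈ Icc 1 N ×ˢ Icc 1 N, (a x.1 * (starRingEnd ℂ) (a x.2)) *
        ∫ t : ℝ, (((Real.exp (-(t / T) ^ 2) : ℝ) : ℂ) *
      Complex.exp (((-(t * (Real.log x.1 - Real.log x.2)) : ℝ) : ℂ) * Complex.I)) := by
    rw [← integral_complex_ofReal]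
    simp_rw [expand]
    rw [integral_finsetSum _ hint]
    exact Finset.sum_congr rfl fun x _ => integral_const_mul _ _
  have h2 : ∫ t : ℝ, Real.exp (-(t / T) ^ 2) * ‖∑ n ∈ Icc 1 N, a n * ch t n‖ ^ 2 ≤
      ∑ x ∈ Icc 1 N ×ˢ Icc 1 N, (‖a x.1‖ * ‖a x.2‖) *
        (√Real.pi * T * Real.exp (-(T ^ 2 * (Real.log x.1 - Real.log x.2) ^ 2 / 4))) := by
    calc ∫ t : ℝ, Real.exp (-(t / T) ^ 2) * ‖∑ n ∈ Icc 1 N, a n * ch t n‖ ^ 2
        ≤ ‖((∫ t : ℝ, Real.exp (-(t / T) ^ 2) *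
            ‖∑ n ∈ Icc 1 N, a n * ch t n‖ ^ 2 : ℝ) : ℂ)‖ := by
          rw [Complex.norm_real]; exact le_abs_self _
      _ ≤ _ := by
          rw [h1]
          refine (norm_sum_le _ _).trans (Finset.sum_le_sum fun x _ => ?_)
          rw [norm_mul, (kern T _ hT).2, norm_mul, RCLike.norm_conj]
  refine h2.trans ?_
  set k : ℕ → ℕ → ℝ := fun m n => Real.exp (-(T ^ 2 * (Real.log m - Real.log n) ^ 2 / 4)) with hk
  have h3 : ∑ x ∈ Icc 1 N ×ˢ Icc 1 N, (‖a x.1‖ * ‖a x.2‖) * (√Real.pi * T * k x.1 x.2) ≤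
      ∑ x ∈ Icc 1 N ×ˢ Icc 1 N, (√Real.pi * T) * ((1 / 2) * (‖a x.1‖ ^ 2 * k x.1 x.2) +
        (1 / 2) * (‖a x.2‖ ^ 2 * k x.1 x.2)) := by
    refine Finset.sum_le_sum fun x _ => ?_
    have hkp : 0 ≤ k x.1 x.2 := (Real.exp_pos _).le
    have hpi : 0 ≤ √Real.pi * T := by positivity
    have : ‖a x.1‖ * ‖a x.2‖ ≤ (1 / 2) * ‖a x.1‖ ^ 2 + (1 / 2) * ‖a x.2‖ ^ 2 := by
      nlinarith [sq_nonneg (‖a x.1‖ - ‖a x.2‖)]
    calc (‖a x.1‖ * ‖a x.2‖) * (√Real.pi * T * k x.1 x.2)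
        ≤ ((1 / 2) * ‖a x.1‖ ^ 2 + (1 / 2) * ‖a x.2‖ ^ 2) * (√Real.pi * T * k x.1 x.2) :=
          mul_le_mul_of_nonneg_right this (by positivity)
      _ = _ := by ring
  refine h3.trans ?_
  rw [← Finset.mul_sum, Finset.sum_add_distrib, ← Finset.mul_sum, ← Finset.mul_sum]
  have hrow : ∀ n ∈ Icc 1 N, ∑ m ∈ Icc 1 N, k m n ≤ Real.exp 1 * (2 * (1 + N / T)) :=
    fun n hn => row T N n hT hn
  have hsym : ∀ m n, k m n = k n m := by
    intro m n
    simp only [hk]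
    congr 1
    ring
  have h4 : ∑ x ∈ Icc 1 N ×ˢ Icc 1 N, ‖a x.2‖ ^ 2 * k x.1 x.2 ≤
      (Real.exp 1 * (2 * (1 + N / T))) * ∑ n ∈ Icc 1 N, ‖a n‖ ^ 2 := by
    rw [Finset.sum_product_right, Finset.mul_sum]
    refine Finset.sum_le_sum fun n hn => ?_
    simp only
    rw [← Finset.mul_sum, mul_comm]
    exact mul_le_mul_of_nonneg_right (hrow n hn) (by positivity)
  have h5 : ∑ x ∈ Icc 1 N ×ˢ Icc 1 N, ‖a x.1‖ ^ 2 * k x.1 x.2 ≤
      (Real.exp 1 * (2 * (1 + N / T))) * ∑ n ∈ Icc 1 N, ‖a n‖ ^ 2 := by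
    rw [Finset.sum_product, Finset.mul_sum]
    refine Finset.sum_le_sum fun n hn => ?_
    simp only
    rw [← Finset.mul_sum, mul_comm]
    refine mul_le_mul_of_nonneg_right ?_ (by positivity)
    refine le_trans (le_of_eq ?_) (hrow n hn)
    exact Finset.sum_congr rfl fun m _ => hsym n m
  have hpi : 0 ≤ √Real.pi * T := by positivity
  rw [mul_assoc (√Real.pi * T)]
  refine mul_le_mul_of_nonneg_left ?_ hpi
  linarith

end MVx

open MVx in
theorem mv : StMV := by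
  refine ⟨2 * Real.exp 1 ^ 2 * √Real.pi, by positivity, fun T N a hT hN => ?_⟩
  have hT0 : 0 < T := by linarith
  obtain ⟨hI, hle⟩ := MVx.main T N a hT0
  have h1 : ∫ t in (-T)..T, ‖∑ n ∈ Icc 1 N, a n * ch t n‖ ^ 2 ≤
      Real.exp 1 * ∫ t : ℝ, Real.exp (-(t / T) ^ 2) * ‖∑ n ∈ Icc 1 N, a n * ch t n‖ ^ 2 := by
    have hcont : Continuous (fun t : ℝ => ‖∑ n ∈ Icc 1 N, a n * ch t n‖ ^ 2) := by
      unfold ch
      fun_prop
    rw [← integral_const_mul, intervalIntegral.integral_of_le (by linarith)]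
    calc ∫ t in Set.Ioc (-T) T, ‖∑ n ∈ Icc 1 N, a n * ch t n‖ ^ 2
        ≤ ∫ t in Set.Ioc (-T) T, Real.exp 1 *
            (Real.exp (-(t / T) ^ 2) * ‖∑ n ∈ Icc 1 N, a n * ch t n‖ ^ 2) := by
          apply setIntegral_mono_on
          · exact (hcont.integrableOn_Icc (a := -T) (b := T)).mono_set Set.Ioc_subset_Icc_self
          · exact (hI.const_mul _).integrableOn
          · exact measurableSet_Ioc
          · intro t ht
            have h2 : 1 ≤ Real.exp 1 * Real.exp (-(t / T) ^ 2) := by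
              rw [← Real.exp_add]
              apply Real.one_le_exp
              have h3 : |t / T| ≤ 1 := by
                rw [abs_div, abs_of_pos hT0, div_le_one hT0, abs_le]
                exact ⟨ht.1.le, ht.2⟩
              have h4 : (t / T) ^ 2 ≤ 1 := by
                rw [← sq_abs]; nlinarith [abs_nonneg (t / T)]
              linarith
            calc ‖∑ n ∈ Icc 1 N, a n * ch t n‖ ^ 2
                = 1 * ‖∑ n ∈ Icc 1 N, a n * ch t n‖ ^ 2 := (one_mul _).symm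
              _ ≤ (Real.exp 1 * Real.exp (-(t / T) ^ 2)) * ‖∑ n ∈ Icc 1 N, a n * ch t n‖ ^ 2 :=
                  mul_le_mul_of_nonneg_right h2 (by positivity)
              _ = _ := by ring
      _ ≤ ∫ t : ℝ, Real.exp 1 *
            (Real.exp (-(t / T) ^ 2) * ‖∑ n ∈ Icc 1 N, a n * ch t n‖ ^ 2) :=
          setIntegral_le_integral (hI.const_mul _)
            (Filter.Eventually.of_forall fun t => by positivity)
  refine h1.trans ?_
  calc Real.exp 1 * ∫ t : ℝ, Real.exp (-(t / T) ^ 2) * ‖∑ n ∈ Icc 1 N, a n * ch t n‖ ^ 2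
      ≤ Real.exp 1 * (√Real.pi * T * (Real.exp 1 * (2 * (1 + N / T))) *
        ∑ n ∈ Icc 1 N, ‖a n‖ ^ 2) := mul_le_mul_of_nonneg_left hle (Real.exp_pos _).le
    _ = 2 * Real.exp 1 ^ 2 * √Real.pi * (T + N) * ∑ n ∈ Icc 1 N, ‖a n‖ ^ 2 := by
        field_simp

end Pool.Agent.Helper68.MR
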